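import Mathlib

set_option autoImplicit false

/-!
# A Nikodym type lemma

Every point of a thin parallelogram lies on a line, of slope close to the slope of the
parallelogram, which to the right of the parallelogram is covered by finitely many blocks of
arbitrarily small total area (relative to the height of the parallelogram).
-/

namespace Pool.Agent.Run7.h542.BS

noncomputable section

/-- the block `s ≤ x ≤ t`, `|y - p x - q| ≤ w` -/
structure Blk where
  p : ℝ
  q : ℝ
  w : ℝ
  s : ℝ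
  t : ℝ

def cov (F : List Blk) (x y : ℝ) : Prop := ∃ f ∈ F, f.s ≤ x ∧ x ≤ f.t ∧ |y - f.p * x - f.q| ≤ f.w

def Bl (F : List Blk) : Prop := ∀ f ∈ F, 0 ≤ f.w ∧ f.s ≤ f.t

/-- half of the total area -/
def ar (F : List Blk) : ℝ := (F.map (fun f => f.w * (f.t - f.s))).sum

theorem ar_append (F G : List Blk) : ar (F ++ G) = ar F + ar G := by simp [ar]

theorem ar_cons (f : Blk) (G : List Blk) : ar (f :: G) = f.w * (f.t - f.s) + ar G := by simp [ar]

theorem ar_nil : ar [] = 0 := by simp [ar]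

theorem cov_left {F : List Blk} (G : List Blk) {x y : ℝ} (h : cov F x y) : cov (F ++ G) x y := by
  obtain ⟨f, hf, h⟩ := h
  exact ⟨f, List.mem_append_left _ hf, h⟩

theorem cov_right (F : List Blk) {G : List Blk} {x y : ℝ} (h : cov G x y) : cov (F ++ G) x y := by
  obtain ⟨f, hf, h⟩ := h
  exact ⟨f, List.mem_append_right _ hf, h⟩

theorem Bl_append {F G : List Blk} (h1 : Bl F) (h2 : Bl G) : Bl (F ++ G) := by
  intro f hf
  rcases List.mem_append.1 hf with h | h
  · exact h1 f h
  · exact h2 f h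

theorem ar_nonneg {F : List Blk} (h : Bl F) : 0 ≤ ar F := by
  apply List.sum_nonneg
  intro x hx
  obtain ⟨f, hf, rfl⟩ := List.mem_map.1 hx
  exact mul_nonneg (h f hf).1 (sub_nonneg.2 (h f hf).2)

theorem concat (m : ℕ) (F : ℕ → List Blk) (A : ℝ) (h1 : ∀ j < m, Bl (F j))
    (h2 : ∀ j < m, ar (F j) ≤ A) :
    ∃ G, Bl G ∧ ar G ≤ m * A ∧ ∀ j < m, ∀ x y, cov (F j) x y → cov G x y := by
  induction m with
  | zero => exact ⟨[], by simp [Bl], by simp [ar_nil], by simp⟩
  | succ m ih =>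
    obtain ⟨G, g1, g2, g3⟩ := ih (fun j hj => h1 j (by omega)) (fun j hj => h2 j (by omega))
    refine ⟨G ++ F m, Bl_append g1 (h1 m (by omega)), ?_, ?_⟩
    · rw [ar_append]
      have := h2 m (by omega)
      push_cast
      linarith
    · intro j hj x y h
      rcases Nat.lt_succ_iff_lt_or_eq.1 hj with h' | h'
      · exact cov_left _ (g3 j h' x y h)
      · subst h'; exact cov_right _ h

/-- a grid point near a given point of `[-Θ, Θ]` -/
theorem grid {m : ℕ} (hm : 0 < m) {Θ s : ℝ} (hΘ : 0 < Θ) (h1 : -Θ ≤ s) (h2 : s ≤ Θ) :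
    ∃ j < m, |s - Θ * (-1 + (2 * (j : ℝ) + 1) / m)| ≤ Θ / m := by
  have hm' : (0 : ℝ) < m := by exact_mod_cast hm
  rcases eq_or_lt_of_le h2 with rfl | h3
  · refine ⟨m - 1, by omega, ?_⟩
    have : ((m - 1 : ℕ) : ℝ) = m - 1 := by rw [Nat.cast_sub (by omega)]; simp
    rw [this]
    have e : s - s * (-1 + (2 * ((m : ℝ) - 1) + 1) / m) = s / m := by
      field_simp; ring
    rw [e, abs_of_nonneg (by positivity)]
  · set u := (s + Θ) * m / (2 * Θ) with hu
    have hu0 : 0 ≤ u := by
      apply div_nonneg _ (by positivity)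
      exact mul_nonneg (by linarith) hm'.le
    have hum : u < m := by
      rw [hu, div_lt_iff₀ (by positivity)]
      nlinarith
    have hj1 : (⌊u⌋₊ : ℝ) ≤ u := Nat.floor_le hu0
    have hj2 : u < ⌊u⌋₊ + 1 := Nat.lt_floor_add_one _
    refine ⟨⌊u⌋₊, (Nat.floor_lt hu0).2 hum, ?_⟩
    have e : s - Θ * (-1 + (2 * ((⌊u⌋₊ : ℕ) : ℝ) + 1) / m) = (Θ / m) * (2 * (u - ⌊u⌋₊) - 1) := by
      rw [hu]; field_simp; ring
    rw [e, abs_mul, abs_of_pos (by positivity : 0 < Θ / m)]
    have : |2 * (u - (⌊u⌋₊ : ℝ)) - 1| ≤ 1 := by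
      rw [abs_le]; constructor <;> linarith
    have h5 : 0 < Θ / m := by positivity
    nlinarith

def Pn (κ h t L : ℝ) : Prop := ∀ η ε z α c θ : ℝ, 0 < η → 0 < ε → t ≤ z → 0 < θ →
  θ * z ≤ η * κ / 2 → ∃ F, Bl F ∧ ar F ≤ L * (θ * z) + ε ∧
    ∀ X Y, -h ≤ X → X ≤ 0 → |Y - (α * X + c)| ≤ θ * (z - X) →
      ∃ a, |a - α| ≤ η ∧ ∀ x, 0 ≤ x → x ≤ t → cov F x (Y + a * (x - X))

theorem Pn_base {κ h : ℝ} (hκ : 0 < κ) : Pn κ h κ κ := by
  intro η ε z α c θ hη hε hz hθ hθz
  have hz0 : 0 < z := by linarith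
  refine ⟨[⟨α, c, θ * z, 0, κ⟩], ?_, ?_, ?_⟩
  · intro f hf
    rw [List.mem_singleton] at hf
    subst hf
    exact ⟨by positivity, hκ.le⟩
  · simp only [ar, List.map_cons, List.map_nil, List.sum_cons, List.sum_nil]
    nlinarith
  · intro X Y hX1 hX2 hY
    have hzX : 0 < z - X := by linarith
    refine ⟨α + (α * X + c - Y) / (z - X), ?_, ?_⟩
    · rw [add_sub_cancel_left, abs_div, abs_of_pos hzX, div_le_iff₀ hzX, abs_sub_comm]
      refine hY.trans ?_
      have : θ ≤ η := by
        by_contra hc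
        push Not at hc
        have : η * κ ≤ θ * z := by nlinarith
        nlinarith
      nlinarith
    · intro x hx0 hx1
      refine ⟨_, List.mem_singleton.2 rfl, hx0, hx1, ?_⟩
      simp only
      have e : Y + (α + (α * X + c - Y) / (z - X)) * (x - X) - α * x - c =
          (Y - (α * X + c)) * ((z - x) / (z - X)) := by
        field_simp; ring
      rw [e, abs_mul, abs_of_nonneg (div_nonneg (by linarith) hzX.le)]
      calc |Y - (α * X + c)| * ((z - x) / (z - X)) ≤ (θ * (z - X)) * ((z - x) / (z - X)) :=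
            mul_le_mul_of_nonneg_right hY (div_nonneg (by linarith) hzX.le)
        _ = θ * (z - x) := by field_simp
        _ ≤ θ * z := by nlinarith

theorem Pn_step {κ h t' t L : ℝ} (hκ : 0 < κ) (hh : 0 ≤ h) (ht' : κ ≤ t') (htt : t' ≤ t)
    (H : Pn κ h t' L) : Pn κ h t (L + (t - t') ^ 2 / κ) := by
  intro η ε z α c θ hη hε hz hθ hθz
  have ht0 : 0 < t' := by linarith
  have hz0 : 0 < z := by linarith
  set Θ := θ * z / t' with hΘ
  have hΘ0 : 0 < Θ := by positivity
  have hΘt : Θ * t' = θ * z := by rw [hΘ]; field_simp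
  have hΘη : Θ ≤ η / 2 := by
    rw [hΘ, div_le_iff₀ ht0]
    nlinarith
  -- small tolerances
  set D := (t + h + 1) * (t - t' + 1) with hD
  have hD0 : 0 < D := by
    apply mul_pos <;> linarith
  set η' := min (η / 2) (ε / (4 * D)) with hη'
  have hη'0 : 0 < η' := lt_min (by linarith) (by positivity)
  obtain ⟨m, hm⟩ := exists_nat_gt (max (2 * (θ * z) / (η' * κ)) (4 * Θ * D / ε))
  have hm1 := (le_max_left _ _).trans_lt hm
  have hm2 := (le_max_right _ _).trans_lt hm
  have hm0 : (0 : ℝ) < m := lt_of_le_of_lt (by positivity) hm1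
  have hmN : 0 < m := by exact_mod_cast hm0
  rw [div_lt_iff₀ (by positivity)] at hm1
  rw [div_lt_iff₀ hε] at hm2
  set a : ℕ → ℝ := fun j => α + Θ * (-1 + (2 * (j : ℝ) + 1) / m) with ha
  set cc : ℕ → ℝ := fun j => (α * t' + c) - a j * t' with hcc
  have hθj : 0 < Θ / m := by positivity
  have hcond : Θ / m * t' ≤ η' * κ / 2 := by
    have : Θ / m * t' = θ * z / m := by rw [← hΘt]; ring
    rw [this, div_le_iff₀ hm0]
    linarith
  choose F hF1 hF2 hF3 using fun j : ℕ =>
    H η' (ε / (4 * m)) t' (a j) (cc j) (Θ / m) hη'0 (by positivity) le_rfl hθj hcond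
  obtain ⟨G, g1, g2, g3⟩ := concat m F (L * (Θ / m * t') + ε / (4 * m)) (fun j _ => hF1 j)
    (fun j _ => hF2 j)
  set e := Θ / m * (t' + h) + η' * (t + h) with he
  have he0 : 0 ≤ e := by
    have : 0 ≤ t' + h := by linarith
    have : 0 ≤ t + h := by linarith
    positivity
  have heD : e * (t - t') ≤ ε / 2 := by
    have h1 : (t' + h) * (t - t') ≤ D := by
      rw [hD]; nlinarith
    have h2 : (t + h) * (t - t') ≤ D := by
      rw [hD]; nlinarith
    have h3 : Θ / m * D ≤ ε / 4 := by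
      rw [div_mul_eq_mul_div, div_le_iff₀ hm0]; nlinarith
    have h4 : η' * D ≤ ε / 4 := by
      have : η' ≤ ε / (4 * D) := min_le_right _ _
      rw [le_div_iff₀ (by positivity)] at this
      linarith
    have h5 : Θ / m * ((t' + h) * (t - t')) ≤ Θ / m * D := mul_le_mul_of_nonneg_left h1 hθj.le
    have h6 : η' * ((t + h) * (t - t')) ≤ η' * D := mul_le_mul_of_nonneg_left h2 hη'0.le
    have : e * (t - t') = Θ / m * ((t' + h) * (t - t')) + η' * ((t + h) * (t - t')) := by
      rw [he]; ring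
    linarith
  refine ⟨⟨α, c, Θ * (t - t') + e, t', t⟩ :: G, ?_, ?_, ?_⟩
  · intro f hf
    rcases List.mem_cons.1 hf with h | h
    · subst h
      have : 0 ≤ Θ * (t - t') := mul_nonneg hΘ0.le (by linarith)
      exact ⟨by simp only; linarith, htt⟩
    · exact g1 f h
  · rw [ar_cons]
    simp only
    have h1 : (m : ℝ) * (L * (Θ / m * t') + ε / (4 * m)) = L * (θ * z) + ε / 4 := by
      rw [← hΘt]; field_simp
    rw [h1] at g2
    have h2 : Θ * (t - t') * (t - t') ≤ (t - t') ^ 2 / κ * (θ * z) := by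
      have h3 : Θ ≤ θ * z / κ := by
        rw [hΘ]
        exact div_le_div_of_nonneg_left (by positivity) hκ ht'
      have h4 : 0 ≤ (t - t') ^ 2 := sq_nonneg _
      calc Θ * (t - t') * (t - t') = (t - t') ^ 2 * Θ := by ring
        _ ≤ (t - t') ^ 2 * (θ * z / κ) := mul_le_mul_of_nonneg_left h3 h4
        _ = (t - t') ^ 2 / κ * (θ * z) := by ring
    nlinarith
  · intro X Y hX1 hX2 hY
    have htX : 0 < t' - X := by linarith
    set b := (α * X + c - Y) / (t' - X) with hb
    have hbX : b * (t' - X) = α * X + c - Y := by rw [hb]; field_simp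
    have hbΘ : |b| ≤ Θ := by
      rw [hb, abs_div, abs_of_pos htX, div_le_iff₀ htX, abs_sub_comm]
      refine hY.trans ?_
      have : Θ * (t' - X) = θ * z - Θ * X := by rw [mul_sub, hΘt]
      rw [this]
      have h5 : θ ≤ Θ := by
        rw [hΘ, le_div_iff₀ ht0]
        nlinarith
      nlinarith
    rw [abs_le] at hbΘ
    obtain ⟨j, hj, hjb⟩ := grid hmN hΘ0 hbΘ.1 hbΘ.2
    have hPj : |Y - (a j * X + cc j)| ≤ Θ / m * (t' - X) := by
      have e1 : Y - (a j * X + cc j) =
          -((b - Θ * (-1 + (2 * (j : ℝ) + 1) / m)) * (t' - X)) := by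
        rw [sub_mul, hbX]
        simp only [hcc, ha]
        ring
      rw [e1, abs_neg, abs_mul, abs_of_pos htX]
      exact mul_le_mul_of_nonneg_right hjb htX.le
    obtain ⟨a', ha1, ha2⟩ := hF3 j X Y hX1 hX2 hPj
    have haj : |a j - α| ≤ Θ := by
      have hj1 : (j : ℝ) + 1 ≤ m := by exact_mod_cast hj
      have hj0 : (0 : ℝ) ≤ j := Nat.cast_nonneg j
      have h7 : |(-1 + (2 * (j : ℝ) + 1) / m)| ≤ 1 := by
        rw [abs_le]
        constructor
        · have : 0 ≤ (2 * (j : ℝ) + 1) / m := by positivity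
          linarith
        · have : (2 * (j : ℝ) + 1) / m ≤ 2 := by
            rw [div_le_iff₀ hm0]; linarith
          linarith
      simp only [ha, add_sub_cancel_left]
      rw [abs_mul, abs_of_pos hΘ0]
      nlinarith
    refine ⟨a', ?_, ?_⟩
    · have h8 : η' ≤ η / 2 := min_le_left _ _
      calc |a' - α| = |(a' - a j) + (a j - α)| := by ring_nf
        _ ≤ |a' - a j| + |a j - α| := abs_add_le _ _
        _ ≤ η := by linarith
    · intro x hx0 hx1
      rcases le_total x t' with hx | hx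
      · obtain ⟨f, hf, hfx⟩ := g3 j hj _ _ (ha2 x hx0 hx)
        exact ⟨f, List.mem_cons_of_mem _ hf, hfx⟩
      · refine ⟨_, List.mem_cons_self, hx, hx1, ?_⟩
        simp only
        have e2 : Y + a' * (x - X) - α * x - c =
            (Y - (a j * X + cc j)) + (a' - a j) * (x - X) + (a j - α) * (x - t') := by
          simp only [hcc]; ring
        rw [e2]
        have h9 : |(a' - a j) * (x - X)| ≤ η' * (t + h) := by
          rw [abs_mul, abs_of_nonneg (by linarith : 0 ≤ x - X)]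
          apply mul_le_mul ha1 (by linarith) (by linarith) hη'0.le
        have h10 : |(a j - α) * (x - t')| ≤ Θ * (t - t') := by
          rw [abs_mul, abs_of_nonneg (by linarith : 0 ≤ x - t')]
          apply mul_le_mul haj (by linarith) (by linarith) hΘ0.le
        have h11 : |Y - (a j * X + cc j)| ≤ Θ / m * (t' + h) :=
          hPj.trans (mul_le_mul_of_nonneg_left (by linarith) hθj.le)
        calc |(Y - (a j * X + cc j)) + (a' - a j) * (x - X) + (a j - α) * (x - t')| ≤
              |(Y - (a j * X + cc j))| + |(a' - a j) * (x - X)| + |(a j - α) * (x - t')| := by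
              refine (abs_add_le _ _).trans ?_
              gcongr
              exact abs_add_le _ _
          _ ≤ Θ * (t - t') + e := by rw [he]; linarith

theorem Pn_mono {κ h t L L' : ℝ} (hκ : 0 < κ) (ht : κ ≤ t) (hL : L ≤ L') (H : Pn κ h t L) :
    Pn κ h t L' := by
  intro η ε z α c θ hη hε hz hθ hθz
  obtain ⟨F, h1, h2, h3⟩ := H η ε z α c θ hη hε hz hθ hθz
  refine ⟨F, h1, h2.trans ?_, h3⟩
  have : 0 ≤ θ * z := mul_nonneg hθ.le (by linarith)
  nlinarith

theorem Pn_all {κ h : ℝ} (hκ : 0 < κ) (hκ1 : κ ≤ 1) (hh : 0 ≤ h) (n : ℕ) (hn : 0 < n) (k : ℕ) :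
    Pn κ h (κ + k * (1 / n)) (κ + k * ((1 / (n : ℝ)) ^ 2 / κ)) := by
  have hn' : (0 : ℝ) < n := by exact_mod_cast hn
  induction k with
  | zero => simpa using Pn_base hκ
  | succ k ih =>
    have := Pn_step (t := κ + (k + 1 : ℕ) * (1 / n)) hκ hh (by
      have : (0 : ℝ) ≤ k * (1 / n) := by positivity
      linarith) (by push_cast; have : (0 : ℝ) < 1 / n := by positivity
                    nlinarith) ih
    convert this using 1
    push_cast
    ring

/-- the Nikodym lemma for thin sectors -/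
theorem nik {L h : ℝ} (hL : 0 < L) (hh : 0 ≤ h) : ∃ κ, 0 < κ ∧ ∃ t, 1 ≤ t ∧ t ≤ 3 ∧ Pn κ h t L := by
  set κ := min (L / 2) 1 with hκ
  have hκ0 : 0 < κ := lt_min (by linarith) one_pos
  have hκ1 : κ ≤ 1 := min_le_right _ _
  have hκL : κ ≤ L / 2 := min_le_left _ _
  obtain ⟨n, hn⟩ := exists_nat_gt (2 / (κ * L))
  have hn0 : (0 : ℝ) < n := lt_of_le_of_lt (by positivity) hn
  have hnN : 0 < n := by exact_mod_cast hn0
  rw [div_lt_iff₀ (by positivity)] at hn
  refine ⟨κ, hκ0, κ + n * (1 / n), ?_, ?_, ?_⟩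
  · have : (n : ℝ) * (1 / n) = 1 := by field_simp
    rw [this]; linarith
  · have : (n : ℝ) * (1 / n) = 1 := by field_simp
    rw [this]; linarith
  · refine Pn_mono hκ0 ?_ ?_ (Pn_all hκ0 hκ1 hh n hnN n)
    · have : (0 : ℝ) ≤ n * (1 / n) := by positivity
      linarith
    · have e : (n : ℝ) * ((1 / (n : ℝ)) ^ 2 / κ) = 1 / (n * κ) := by field_simp
      rw [e]
      have : 1 / (n * κ) ≤ L / 2 := by
        rw [div_le_iff₀ (by positivity)]
        nlinarith
      linarith

end

end Pool.Agent.Run7.h542.BS
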