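import Mathlib
import Pool.Agent.Run7.h542.BS.Nik

set_option autoImplicit false

namespace Pool.Agent.Run7.h542.BS

open Set MeasureTheory

noncomputable section

def shift (x0 : ℝ) (f : Blk) : Blk := ⟨f.p, f.q - f.p * x0, f.w, f.s + x0, f.t + x0⟩

theorem shift_Bl {F : List Blk} (x0 : ℝ) (h : Bl F) : Bl (F.map (shift x0)) := by
  intro f hf
  obtain ⟨g, hg, rfl⟩ := List.mem_map.1 hf
  have := h g hg
  exact ⟨this.1, by simp only [shift]; linarith [this.2]⟩

theorem shift_ar (F : List Blk) (x0 : ℝ) : ar (F.map (shift x0)) = ar F := by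
  simp only [ar, List.map_map]
  congr 1
  apply List.map_congr_left
  intro f _
  simp [shift]

theorem shift_cov {F : List Blk} {x0 x y : ℝ} (h : cov F (x - x0) y) :
    cov (F.map (shift x0)) x y := by
  obtain ⟨f, hf, h1, h2, h3⟩ := h
  refine ⟨_, List.mem_map_of_mem hf, ?_, ?_, ?_⟩
  · simp only [shift]; linarith
  · simp only [shift]; linarith
  · simp only [shift]
    have e : y - f.p * x - (f.q - f.p * x0) = y - f.p * (x - x0) - f.q := by ring
    rw [e]; exact h3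

/-- covering a square by lines -/
theorem square_cover {g α η ε X0 Y0 : ℝ} (hg : 0 < g) (hg1 : g ≤ 1) (hα : |α| ≤ 2) (hη : 0 < η)
    (hη1 : η ≤ 1) (hε : 0 < ε) : ∃ F, Bl F ∧ ar F ≤ 10 * g ^ 2 + ε ∧
      ∀ X Y, X0 ≤ X → X ≤ X0 + g → Y0 ≤ Y → Y ≤ Y0 + g →
        ∃ a, |a - α| ≤ η ∧ ∀ x, X0 ≤ x → x ≤ X0 + g + 1 → cov F x (Y + a * (x - X)) := by
  set v := 3 * g / 2 with hv
  have hv0 : 0 < v := by positivity
  set c0 := Y0 + g / 2 + α * g / 2 with hc0
  obtain ⟨κ, hκ, t, ht1, ht3, HP⟩ := nik (L := ε / (2 * (v + 1))) (h := g) (by positivity) hg.le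
  obtain ⟨n, hn⟩ := exists_nat_gt (2 * v / (η * κ))
  have hn0 : (0 : ℝ) < n := lt_of_le_of_lt (by positivity) hn
  have hnN : 0 < n := by exact_mod_cast hn0
  rw [div_lt_iff₀ (by positivity)] at hn
  have ht0 : 0 < t := by linarith
  set θ := v / (n * t) with hθ
  have hθ0 : 0 < θ := by positivity
  have hθt : θ * t = v / n := by rw [hθ]; field_simp
  have hcond : θ * t ≤ η * κ / 2 := by
    rw [hθt, div_le_iff₀ hn0]; linarith
  set ci : ℕ → ℝ := fun i => c0 + v * (-1 + (2 * (i : ℝ) + 1) / n) with hci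
  choose F hF1 hF2 hF3 using fun i : ℕ =>
    HP η (ε / (2 * n)) t α (ci i) θ hη (by positivity) le_rfl hθ0 hcond
  obtain ⟨G, g1, g2, g3⟩ := concat n F _ (fun j _ => hF1 j) (fun j _ => hF2 j)
  refine ⟨⟨α, c0 - α * (X0 + g), v + η * g, X0, X0 + g⟩ :: G.map (shift (X0 + g)), ?_, ?_, ?_⟩
  · intro f hf
    rcases List.mem_cons.1 hf with h | h
    · subst h
      exact ⟨by simp only; positivity, by simp only; linarith⟩
    · exact shift_Bl _ g1 f h
  · rw [ar_cons, shift_ar]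
    simp only
    have e1 : (n : ℝ) * (ε / (2 * (v + 1)) * (θ * t) + ε / (2 * n)) = ε / (2 * (v + 1)) * v + ε / 2 := by
      rw [hθt]; field_simp
    rw [e1] at g2
    have e2 : ε / (2 * (v + 1)) * v ≤ ε / 2 := by
      rw [div_mul_eq_mul_div, div_le_div_iff₀ (by positivity) (by norm_num)]
      nlinarith
    have e3 : (v + η * g) * (X0 + g - X0) ≤ 10 * g ^ 2 := by
      rw [hv]
      nlinarith [mul_pos hg hg]
    linarith
  · intro X Y hX1 hX2 hY1 hY2
    have hpar : |Y - (α * (X - (X0 + g)) + c0)| ≤ v := by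
      have e : Y - (α * (X - (X0 + g)) + c0) = (Y - Y0 - g / 2) - α * (X - X0 - g / 2) := by
        rw [hc0]; ring
      rw [e]
      have h1 : |Y - Y0 - g / 2| ≤ g / 2 := by rw [abs_le]; constructor <;> linarith
      have h2 : |α * (X - X0 - g / 2)| ≤ 2 * (g / 2) := by
        rw [abs_mul]
        apply mul_le_mul hα _ (abs_nonneg _) (by norm_num)
        rw [abs_le]; constructor <;> linarith
      calc |(Y - Y0 - g / 2) - α * (X - X0 - g / 2)| ≤ |Y - Y0 - g / 2| + |α * (X - X0 - g / 2)| :=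
            abs_sub _ _
        _ ≤ v := by rw [hv]; linarith
    rw [abs_le] at hpar
    obtain ⟨i, hi, hiv⟩ := grid hnN hv0 hpar.1 hpar.2
    have hsec : |Y - (α * (X - (X0 + g)) + ci i)| ≤ θ * (t - (X - (X0 + g))) := by
      have e : Y - (α * (X - (X0 + g)) + ci i) =
          (Y - (α * (X - (X0 + g)) + c0)) - v * (-1 + (2 * (i : ℝ) + 1) / n) := by
        simp only [hci]; ring
      rw [e]
      refine hiv.trans ?_
      rw [← hθt]
      have : 0 ≤ θ * ((X0 + g) - X) := mul_nonneg hθ0.le (by linarith)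
      linarith
    obtain ⟨a, ha1, ha2⟩ := hF3 i (X - (X0 + g)) Y (by linarith) (by linarith) hsec
    refine ⟨a, ha1, fun x hx1 hx2 => ?_⟩
    rcases le_total x (X0 + g) with hx | hx
    · refine ⟨_, List.mem_cons_self, hx1, hx, ?_⟩
      simp only
      have e : Y + a * (x - X) - α * x - (c0 - α * (X0 + g)) =
          (Y - (α * (X - (X0 + g)) + c0)) + (a - α) * (x - X) := by ring
      rw [e]
      have h3 : |(a - α) * (x - X)| ≤ η * g := by
        rw [abs_mul]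
        apply mul_le_mul ha1 _ (abs_nonneg _) hη.le
        rw [abs_le]; constructor <;> linarith
      have h4 : |Y - (α * (X - (X0 + g)) + c0)| ≤ v := abs_le.2 hpar
      exact (abs_add_le _ _).trans (add_le_add h4 h3)
    · have h5 := ha2 (x - (X0 + g)) (by linarith) (by linarith)
      have h6 := g3 i hi _ _ h5
      have h7 := shift_cov (x0 := X0 + g) h6
      obtain ⟨f, hf, hfx⟩ := h7
      have e : Y + a * (x - (X0 + g) - (X - (X0 + g))) = Y + a * (x - X) := by ring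
      rw [e] at hfx
      exact ⟨f, List.mem_cons_of_mem _ hf, hfx⟩

/-- total length of the blocks -/
def len (F : List Blk) : ℝ := (F.map (fun f => f.t - f.s)).sum

theorem len_nonneg {F : List Blk} (h : Bl F) : 0 ≤ len F := by
  apply List.sum_nonneg
  intro x hx
  obtain ⟨f, hf, rfl⟩ := List.mem_map.1 hx
  linarith [(h f hf).2]

def thick (r : ℝ) (f : Blk) : Blk := ⟨f.p, f.q, f.w + r, f.s, f.t⟩

theorem thick_Bl {F : List Blk} {r : ℝ} (hr : 0 ≤ r) (h : Bl F) : Bl (F.map (thick r)) := by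
  intro f hf
  obtain ⟨g, hg, rfl⟩ := List.mem_map.1 hf
  have := h g hg
  exact ⟨by simp only [thick]; linarith [this.1], this.2⟩

theorem thick_ar (F : List Blk) (r : ℝ) : ar (F.map (thick r)) = ar F + r * len F := by
  induction F with
  | nil => simp [ar, len]
  | cons f F ih =>
    rw [List.map_cons, ar_cons, ar_cons, ih]
    have : len (f :: F) = (f.t - f.s) + len F := by simp [len]
    rw [this]
    simp only [thick]
    ring

theorem thick_cov {F : List Blk} {r x y y' : ℝ} (h : cov F x y) (hy : |y' - y| ≤ r) :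
    cov (F.map (thick r)) x y' := by
  obtain ⟨f, hf, h1, h2, h3⟩ := h
  refine ⟨_, List.mem_map_of_mem hf, h1, h2, ?_⟩
  simp only [thick]
  calc |y' - f.p * x - f.q| = |(y' - y) + (y - f.p * x - f.q)| := by ring_nf
    _ ≤ |y' - y| + |y - f.p * x - f.q| := abs_add_le _ _
    _ ≤ f.w + r := by linarith

/-- an item: a closed set of points and an interval of slopes -/
abbrev Item := Set (ℝ × ℝ) × ℝ × ℝ

def Adm (A1 A2 : ℝ) (C : Set (ℝ × ℝ)) (L : List Item) : Prop :=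
  ∀ i ∈ L, IsClosed i.1 ∧ i.1 ⊆ C ∧ A1 ≤ i.2.1 ∧ i.2.1 < i.2.2 ∧ i.2.2 ≤ A2

def Covers (L : List Item) (F : List Blk) : Prop :=
  ∀ i ∈ L, ∀ P ∈ i.1, ∀ a, i.2.1 ≤ a → a ≤ i.2.2 → ∀ x, P.1 ≤ x → x ≤ P.1 + 1 →
    cov F x (P.2 + a * (x - P.1))

theorem square_refine {g A1 A2 ε X0 Y0 : ℝ} (hg : 0 < g) (hg1 : g ≤ 1) (hA1 : -2 ≤ A1)
    (hA : A1 < A2) (hA2 : A2 ≤ 2) (hε : 0 < ε) {C : Set (ℝ × ℝ)} (hC : IsClosed C) :
    ∃ (L : List Item) (F : List Blk), Bl F ∧ ar F ≤ 10 * g ^ 2 + ε ∧ Adm A1 A2 C L ∧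
      (∀ P ∈ C, X0 ≤ P.1 → P.1 ≤ X0 + g → Y0 ≤ P.2 → P.2 ≤ Y0 + g → ∃ i ∈ L, P ∈ i.1) ∧
      Covers L F := by
  set α := (A1 + A2) / 2 with hα
  set η := (A2 - A1) / 4 with hη
  have hη0 : 0 < η := by rw [hη]; linarith
  have hη1 : η ≤ 1 := by rw [hη]; linarith
  have hα2 : |α| ≤ 2 := by rw [hα, abs_le]; constructor <;> linarith
  obtain ⟨F, f1, f2, f3⟩ := square_cover (X0 := X0) (Y0 := Y0) hg hg1 hα2 hη0 hη1
    (show 0 < ε / 2 by linarith)
  have hlen := len_nonneg f1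
  set ρ := min η (ε / (12 * (len F + 1))) with hρ
  have hρ0 : 0 < ρ := lt_min hη0 (by positivity)
  have hρη : ρ ≤ η := min_le_left _ _
  set Q : Set (ℝ × ℝ) := Icc X0 (X0 + g) ×ˢ Icc Y0 (Y0 + g) with hQ
  have hQc : IsCompact Q := isCompact_Icc.prod isCompact_Icc
  obtain ⟨T, hT1, hT2, hT3⟩ := hQc.finite_cover_balls hρ0
  choose! a ha1 ha2 using fun P : ℝ × ℝ => fun (hP : P ∈ Q) =>
    f3 P.1 P.2 hP.1.1 hP.1.2 hP.2.1 hP.2.2
  refine ⟨hT2.toFinset.toList.map (fun P => (C ∩ Q ∩ Metric.closedBall P ρ, a P - ρ, a P + ρ)),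
    F.map (thick (6 * ρ)), thick_Bl (by positivity) f1, ?_, ?_, ?_, ?_⟩
  · rw [thick_ar]
    have h1 : ρ ≤ ε / (12 * (len F + 1)) := min_le_right _ _
    rw [le_div_iff₀ (by positivity)] at h1
    nlinarith
  · intro i hi
    obtain ⟨P, hP, rfl⟩ := List.mem_map.1 hi
    rw [Finset.mem_toList, Set.Finite.mem_toFinset] at hP
    have hPQ := hT1 hP
    have h1 := ha1 P hPQ
    rw [abs_le] at h1
    refine ⟨(hC.inter hQc.isClosed).inter Metric.isClosed_closedBall,
      (inter_subset_left.trans inter_subset_left), ?_, ?_, ?_⟩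
    · simp only; rw [hα, hη] at h1; rw [hη] at hρη; linarith
    · simp only; linarith
    · simp only; rw [hα, hη] at h1; rw [hη] at hρη; linarith
  · intro P hPC h1 h2 h3 h4
    have hPQ : P ∈ Q := ⟨⟨h1, h2⟩, ⟨h3, h4⟩⟩
    obtain ⟨P', hP', hd⟩ := mem_iUnion₂.1 (hT3 hPQ)
    refine ⟨_, List.mem_map.2 ⟨P', ?_, rfl⟩, ⟨hPC, hPQ⟩, Metric.ball_subset_closedBall hd⟩
    rw [Finset.mem_toList, Set.Finite.mem_toFinset]
    exact hP'
  · intro i hi P' hP' b hb1 hb2 x hx1 hx2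
    obtain ⟨P, hP, rfl⟩ := List.mem_map.1 hi
    rw [Finset.mem_toList, Set.Finite.mem_toFinset] at hP
    have hPQ := hT1 hP
    obtain ⟨⟨_, hP'Q⟩, hPd⟩ := hP'
    simp only at hb1 hb2
    have h1 := ha1 P hPQ
    have h2 := ha2 P hPQ x (by linarith [hP'Q.1.1]) (by linarith [hP'Q.1.2])
    refine thick_cov h2 ?_
    rw [Metric.mem_closedBall, Prod.dist_eq, max_le_iff, Real.dist_eq, Real.dist_eq] at hPd
    have e : P'.2 + b * (x - P'.1) - (P.2 + a P * (x - P.1)) =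
        (P'.2 - P.2) + (b - a P) * (x - P'.1) + (-(a P)) * (P'.1 - P.1) := by ring
    rw [e]
    have h3 : |(b - a P) * (x - P'.1)| ≤ ρ * 1 := by
      rw [abs_mul]
      apply mul_le_mul _ _ (abs_nonneg _) hρ0.le
      · rw [abs_le]; constructor <;> linarith
      · rw [abs_le]; constructor <;> linarith
    have h4 : |(-(a P)) * (P'.1 - P.1)| ≤ 3 * ρ := by
      rw [abs_mul, abs_neg]
      apply mul_le_mul _ hPd.1 (abs_nonneg _) (by norm_num)
      rw [abs_le] at h1 hα2 ⊢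
      constructor <;> linarith
    calc |(P'.2 - P.2) + (b - a P) * (x - P'.1) + (-(a P)) * (P'.1 - P.1)| ≤
          |P'.2 - P.2| + |(b - a P) * (x - P'.1)| + |(-(a P)) * (P'.1 - P.1)| := by
          refine (abs_add_le _ _).trans ?_
          gcongr
          exact abs_add_le _ _
      _ ≤ 6 * ρ := by linarith [hPd.2]

/-- grid squares covering a compact null set -/
theorem grid_cover {N : Set (ℝ × ℝ)} (hN : IsCompact N) (h0 : volume N = 0) {ε : ℝ} (hε : 0 < ε) :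
    ∃ g : ℝ, 0 < g ∧ g ≤ 1 ∧ ∃ I : Finset (ℤ × ℤ), (I.card : ℝ) * g ^ 2 ≤ ε ∧
      ∀ P ∈ N, ∃ k ∈ I, k.1 * g ≤ P.1 ∧ P.1 ≤ k.1 * g + g ∧ k.2 * g ≤ P.2 ∧ P.2 ≤ k.2 * g + g := by
  classical
  have ht := tendsto_measure_cthickening_of_isCompact (μ := (volume : Measure (ℝ × ℝ))) hN
  rw [h0] at ht
  have hev := ht.eventually (gt_mem_nhds (show (0 : ENNReal) < ENNReal.ofReal ε by simpa using hε))
  obtain ⟨r, hr0, hr⟩ := Metric.eventually_nhds_iff.1 hev
  set g := min (r / 2) 1 with hg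
  have hg0 : 0 < g := lt_min (by linarith) one_pos
  have hgr : g ≤ r / 2 := min_le_left _ _
  have hmeas : volume (Metric.cthickening g N) < ENNReal.ofReal ε := by
    apply hr
    rw [Real.dist_eq, sub_zero, abs_of_pos hg0]; linarith
  set sq : ℤ × ℤ → Set (ℝ × ℝ) := fun k =>
    Ico (k.1 * g) (k.1 * g + g) ×ˢ Ico (k.2 * g) (k.2 * g + g) with hsq
  obtain ⟨R, hR⟩ := hN.isBounded.subset_closedBall (0 : ℝ × ℝ)
  obtain ⟨M, hM⟩ := exists_nat_gt (|R| / g + 1)
  set I : Finset (ℤ × ℤ) := (Finset.Icc (-(M : ℤ)) M ×ˢ Finset.Icc (-(M : ℤ)) M).filter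
    (fun k => (sq k ∩ N).Nonempty) with hI
  refine ⟨g, hg0, min_le_right _ _, I, ?_, ?_⟩
  · have hsub : (⋃ k ∈ I, sq k) ⊆ Metric.cthickening g N := by
      intro P hP
      obtain ⟨k, hk, hPk⟩ := mem_iUnion₂.1 hP
      obtain ⟨P', hP', hP'N⟩ := (Finset.mem_filter.1 hk).2
      apply Metric.mem_cthickening_of_dist_le P P' g N hP'N
      rw [Prod.dist_eq, max_le_iff, Real.dist_eq, Real.dist_eq, abs_le, abs_le]
      obtain ⟨⟨a1, a2⟩, ⟨a3, a4⟩⟩ := hPk
      obtain ⟨⟨b1, b2⟩, ⟨b3, b4⟩⟩ := hP'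
      refine ⟨⟨by linarith, by linarith⟩, ⟨by linarith, by linarith⟩⟩
    have hdisj : (↑I : Set (ℤ × ℤ)).PairwiseDisjoint sq := by
      intro k _ k' _ hne
      rw [Function.onFun, Set.disjoint_left]
      rintro P ⟨⟨a1, a2⟩, ⟨a3, a4⟩⟩ ⟨⟨b1, b2⟩, ⟨b3, b4⟩⟩
      apply hne
      have e1 : (k.1 : ℝ) < k'.1 + 1 := by
        by_contra hc
        push Not at hc
        nlinarith
      have e2 : (k'.1 : ℝ) < k.1 + 1 := by
        by_contra hc
        push Not at hc
        nlinarith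
      have e3 : (k.2 : ℝ) < k'.2 + 1 := by
        by_contra hc
        push Not at hc
        nlinarith
      have e4 : (k'.2 : ℝ) < k.2 + 1 := by
        by_contra hc
        push Not at hc
        nlinarith
      have e1' : k.1 < k'.1 + 1 := by exact_mod_cast e1
      have e2' : k'.1 < k.1 + 1 := by exact_mod_cast e2
      have e3' : k.2 < k'.2 + 1 := by exact_mod_cast e3
      have e4' : k'.2 < k.2 + 1 := by exact_mod_cast e4
      ext <;> omega
    have hvol : volume (⋃ k ∈ I, sq k) = ∑ k ∈ I, ENNReal.ofReal (g ^ 2) := by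
      rw [measure_biUnion_finset hdisj (fun k _ => measurableSet_Ico.prod measurableSet_Ico)]
      refine Finset.sum_congr rfl (fun k _ => ?_)
      simp only [hsq]
      rw [Measure.volume_eq_prod, Measure.prod_prod, Real.volume_Ico, Real.volume_Ico,
        ← ENNReal.ofReal_mul (by linarith)]
      congr 1; ring
    have hle := (measure_mono hsub).trans hmeas.le
    rw [hvol, Finset.sum_const, nsmul_eq_mul, ← ENNReal.ofReal_natCast,
      ← ENNReal.ofReal_mul (Nat.cast_nonneg _)] at hle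
    exact (ENNReal.ofReal_le_ofReal_iff hε.le).1 hle
  · intro P hP
    have hb : ∀ y : ℝ, |y| ≤ |R| → ⌊y / g⌋ ∈ Finset.Icc (-(M : ℤ)) M := by
      intro y hy
      rw [Finset.mem_Icc]
      rw [abs_le] at hy
      have h1 : y / g ≤ |R| / g := div_le_div_of_nonneg_right hy.2 hg0.le
      have h2 : -(|R| / g) ≤ y / g := by
        rw [← neg_div]; exact div_le_div_of_nonneg_right hy.1 hg0.le
      constructor
      · rw [Int.le_floor]; push_cast; linarith
      · apply Int.floor_le_iff.2; push_cast; linarith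
    have hPR := hR hP
    rw [mem_closedBall_zero_iff, Prod.norm_def, max_le_iff, Real.norm_eq_abs, Real.norm_eq_abs] at hPR
    have hRR := le_abs_self R
    have hfl : ∀ y : ℝ, ((⌊y / g⌋ : ℤ) : ℝ) * g ≤ y ∧ y < ((⌊y / g⌋ : ℤ) : ℝ) * g + g := by
      intro y
      have h1 := Int.floor_le (y / g)
      have h2 := Int.lt_floor_add_one (y / g)
      rw [le_div_iff₀ hg0] at h1
      rw [div_lt_iff₀ hg0] at h2
      exact ⟨h1, by linarith⟩
    refine ⟨(⌊P.1 / g⌋, ⌊P.2 / g⌋), ?_, (hfl P.1).1, (hfl P.1).2.le, (hfl P.2).1, (hfl P.2).2.le⟩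
    rw [hI, Finset.mem_filter, Finset.mem_product]
    refine ⟨⟨hb _ (hPR.1.trans hRR), hb _ (hPR.2.trans hRR)⟩, P, ?_, hP⟩
    exact ⟨hfl P.1, hfl P.2⟩

end

end Pool.Agent.Run7.h542.BS
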