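import Mathlib
import Pool.Agent.Run7.h542.BS.Square

set_option autoImplicit false

/-!
# Every compact null set of the plane lies in a compact null union of unit segments
(a case of a theorem of R. O. Davies)
-/

namespace Pool.Agent.Run7.h542.BS

open Set MeasureTheory

noncomputable section

theorem Covers_append {L L' : List Item} {F F' : List Blk} (h : Covers L F) (h' : Covers L' F') :
    Covers (L ++ L') (F ++ F') := by
  intro i hi P hP a h1 h2 x hx1 hx2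
  rcases List.mem_append.1 hi with hi | hi
  · exact cov_left _ (h i hi P hP a h1 h2 x hx1 hx2)
  · exact cov_right _ (h' i hi P hP a h1 h2 x hx1 hx2)

/-- refinement of one item -/
theorem refine1 {N : Set (ℝ × ℝ)} (hN : IsCompact N) (h0 : volume N = 0) {A1 A2 ε : ℝ}
    (hA1 : -2 ≤ A1) (hA : A1 < A2) (hA2 : A2 ≤ 2) (hε : 0 < ε) {C : Set (ℝ × ℝ)} (hC : IsClosed C) :
    ∃ (L : List Item) (F : List Blk), Bl F ∧ ar F ≤ ε ∧ Adm A1 A2 C L ∧
      (∀ P ∈ N, P ∈ C → ∃ i ∈ L, P ∈ i.1) ∧ Covers L F := by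
  classical
  obtain ⟨g, hg, hg1, I, hI1, hI2⟩ := grid_cover hN h0 (show 0 < ε / 20 by linarith)
  set δ := ε / (2 * ((I.card : ℝ) + 1)) with hδ
  have hδ0 : 0 < δ := by positivity
  -- induction over subsets of `I`
  have key : ∀ J : Finset (ℤ × ℤ), ∃ (L : List Item) (F : List Blk), Bl F ∧
      ar F ≤ (J.card : ℝ) * (10 * g ^ 2 + δ) ∧ Adm A1 A2 C L ∧
      (∀ P ∈ C, (∃ k ∈ J, k.1 * g ≤ P.1 ∧ P.1 ≤ k.1 * g + g ∧ k.2 * g ≤ P.2 ∧ P.2 ≤ k.2 * g + g) →
        ∃ i ∈ L, P ∈ i.1) ∧ Covers L F := by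
    intro J
    induction J using Finset.induction_on with
    | empty =>
      refine ⟨[], [], by simp [Bl], by simp [ar_nil], by simp [Adm], by simp, by simp [Covers]⟩
    | insert k J hk ih =>
      obtain ⟨L, F, a1, a2, a3, a4, a5⟩ := ih
      obtain ⟨L', F', b1, b2, b3, b4, b5⟩ :=
        square_refine (X0 := k.1 * g) (Y0 := k.2 * g) hg hg1 hA1 hA hA2 hδ0 hC
      refine ⟨L ++ L', F ++ F', Bl_append a1 b1, ?_, ?_, ?_, Covers_append a5 b5⟩
      · rw [ar_append, Finset.card_insert_of_notMem hk]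
        push_cast
        linarith
      · intro i hi
        rcases List.mem_append.1 hi with hi | hi
        · exact a3 i hi
        · exact b3 i hi
      · rintro P hP ⟨k', hk', h1, h2, h3, h4⟩
        rcases Finset.mem_insert.1 hk' with rfl | hk''
        · obtain ⟨i, hi, hPi⟩ := b4 P hP h1 h2 h3 h4
          exact ⟨i, List.mem_append_right _ hi, hPi⟩
        · obtain ⟨i, hi, hPi⟩ := a4 P hP ⟨k', hk'', h1, h2, h3, h4⟩
          exact ⟨i, List.mem_append_left _ hi, hPi⟩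
  obtain ⟨L, F, a1, a2, a3, a4, a5⟩ := key I
  refine ⟨L, F, a1, ?_, a3, fun P hP hPC => a4 P hPC (hI2 P hP), a5⟩
  have h1 : (I.card : ℝ) * δ ≤ ε / 2 := by
    rw [hδ, mul_div_assoc', div_le_div_iff₀ (by positivity) (by norm_num)]
    nlinarith
  linarith

/-- refinement of a list of items -/
theorem refineL {N : Set (ℝ × ℝ)} (hN : IsCompact N) (h0 : volume N = 0) (L : List Item) :
    Adm (-2) 2 univ L → ∀ ε : ℝ, 0 < ε →
    ∃ (L' : List Item) (F : List Blk), Bl F ∧ ar F ≤ ε ∧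
      (∀ j ∈ L', ∃ i ∈ L, IsClosed j.1 ∧ j.1 ⊆ i.1 ∧ i.2.1 ≤ j.2.1 ∧ j.2.1 < j.2.2 ∧ j.2.2 ≤ i.2.2) ∧
      (∀ P ∈ N, (∃ i ∈ L, P ∈ i.1) → ∃ i ∈ L', P ∈ i.1) ∧ Covers L' F := by
  induction L with
  | nil =>
    intro _ ε hε
    exact ⟨[], [], by simp [Bl], by simpa [ar_nil] using hε.le, by simp, by simp, by simp [Covers]⟩
  | cons i L ih =>
    intro hL ε hε
    obtain ⟨L1, F1, a1, a2, a3, a4, a5⟩ := ih (fun j hj => hL j (List.mem_cons_of_mem _ hj))
      (ε / 2) (by linarith)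
    obtain ⟨c1, _, c3, c4, c5⟩ := hL i List.mem_cons_self
    obtain ⟨L2, F2, b1, b2, b3, b4, b5⟩ := refine1 hN h0 c3 c4 c5 (show 0 < ε / 2 by linarith) c1
    refine ⟨L1 ++ L2, F1 ++ F2, Bl_append a1 b1, by rw [ar_append]; linarith, ?_, ?_,
      Covers_append a5 b5⟩
    · intro j hj
      rcases List.mem_append.1 hj with hj | hj
      · obtain ⟨i', hi', h⟩ := a3 j hj
        exact ⟨i', List.mem_cons_of_mem _ hi', h⟩
      · exact ⟨i, List.mem_cons_self, b3 j hj⟩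
    · rintro P hP ⟨i', hi', hPi⟩
      rcases List.mem_cons.1 hi' with rfl | hi'
      · obtain ⟨j, hj, hPj⟩ := b4 P hP hPi
        exact ⟨j, List.mem_append_right _ hj, hPj⟩
      · obtain ⟨j, hj, hPj⟩ := a4 P hP ⟨i', hi', hPi⟩
        exact ⟨j, List.mem_append_left _ hj, hPj⟩

/-- the region of a list of items -/
def region (L : List Item) : Set ((ℝ × ℝ) × ℝ) := {z | ∃ i ∈ L, z.1 ∈ i.1 ∧ i.2.1 ≤ z.2 ∧ z.2 ≤ i.2.2}

theorem region_closed {L : List Item} (h : ∀ i ∈ L, IsClosed i.1) : IsClosed (region L) := by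
  induction L with
  | nil =>
    have : region [] = ∅ := by ext z; simp [region]
    rw [this]; exact isClosed_empty
  | cons i L ih =>
    have : region (i :: L) = (i.1 ×ˢ Icc i.2.1 i.2.2) ∪ region L := by
      ext z; simp [region]
    rw [this]
    exact ((h i List.mem_cons_self).prod isClosed_Icc).union
      (ih (fun j hj => h j (List.mem_cons_of_mem _ hj)))

theorem davies {N : Set (ℝ × ℝ)} (hN : IsCompact N) (h0 : volume N = 0) :
    ∃ H : Set ((ℝ × ℝ) × ℝ), IsCompact H ∧ (∀ P ∈ N, ∃ a, (P, a) ∈ H) ∧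
      ∀ ε : ℝ, 0 < ε → ∃ F : List Blk, Bl F ∧ ar F ≤ ε ∧ ∀ z ∈ H, ∀ x, z.1.1 ≤ x → x ≤ z.1.1 + 1 →
        cov F x (z.1.2 + z.2 * (x - z.1.1)) := by
  set X := {L : List Item // Adm (-2) 2 univ L} with hX
  have step : ∀ (n : ℕ) (L : X), ∃ (L' : X) (F : List Blk), Bl F ∧ ar F ≤ 1 / ((n : ℝ) + 1) ∧
      region L'.1 ⊆ region L.1 ∧
      (∀ P ∈ N, (∃ i ∈ L.1, P ∈ i.1) → ∃ i ∈ L'.1, P ∈ i.1) ∧ Covers L'.1 F := by
    intro n L
    obtain ⟨L', F, h1, h2, h3, h4, h5⟩ := refineL hN h0 L.1 L.2 (1 / ((n : ℝ) + 1)) (by positivity)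
    refine ⟨⟨L', ?_⟩, F, h1, h2, ?_, h4, h5⟩
    · intro j hj
      obtain ⟨i, hi, d1, _, d3, d4, d5⟩ := h3 j hj
      obtain ⟨c1, _, c3, c4, c5⟩ := L.2 i hi
      exact ⟨d1, subset_univ _, c3.trans d3, d4, d5.trans c5⟩
    · rintro z ⟨j, hj, hz1, hz2, hz3⟩
      obtain ⟨i, hi, d1, d2, d3, d4, d5⟩ := h3 j hj
      exact ⟨i, hi, d2 hz1, d3.trans hz2, hz3.trans d5⟩
  choose nx Fx h1 h2 h3 h4 h5 using step
  set L0 : X := ⟨[(univ, -2, 2)], by
    intro i hi
    rw [List.mem_singleton] at hi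
    subst hi
    exact ⟨isClosed_univ, subset_rfl, by norm_num, by norm_num, by norm_num⟩⟩ with hL0
  set sq : ℕ → X := fun n => Nat.rec L0 (fun n L => nx n L) n with hsq
  have hsucc : ∀ n, sq (n + 1) = nx n (sq n) := fun n => rfl
  have hne : ∀ n, ∀ P ∈ N, ∃ i ∈ (sq n).1, P ∈ i.1 := by
    intro n
    induction n with
    | zero => intro P _; exact ⟨(univ, -2, 2), List.mem_singleton.2 rfl, mem_univ _⟩
    | succ n ih => intro P hP; rw [hsucc]; exact h4 n (sq n) P hP (ih P hP)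
  have hnest : ∀ n, region (sq (n + 1)).1 ⊆ region (sq n).1 := fun n => by
    rw [hsucc]; exact h3 n (sq n)
  have hcl : ∀ n, IsClosed (region (sq n).1) := fun n =>
    region_closed (fun i hi => ((sq n).2 i hi).1)
  have hsl : ∀ n, ∀ z ∈ region (sq n).1, z.2 ∈ Icc (-2 : ℝ) 2 := by
    rintro n z ⟨i, hi, _, hz2, hz3⟩
    obtain ⟨_, _, c3, c4, c5⟩ := (sq n).2 i hi
    exact ⟨c3.trans hz2, hz3.trans c5⟩
  refine ⟨(N ×ˢ Icc (-2 : ℝ) 2) ∩ ⋂ n, region (sq n).1, ?_, ?_, ?_⟩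
  · exact (hN.prod isCompact_Icc).inter_right (isClosed_iInter hcl)
  · intro P hP
    have hK : (⋂ n, {a : ℝ | (P, a) ∈ region (sq n).1}).Nonempty := by
      apply IsCompact.nonempty_iInter_of_sequence_nonempty_isCompact_isClosed
      · intro n a ha; exact hnest n ha
      · intro n
        obtain ⟨i, hi, hPi⟩ := hne n P hP
        obtain ⟨_, _, _, c4, _⟩ := (sq n).2 i hi
        exact ⟨i.2.1, i, hi, hPi, le_rfl, c4.le⟩
      · apply (isCompact_Icc (a := (-2 : ℝ)) (b := 2)).of_isClosed_subset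
        · exact (hcl 0).preimage (by fun_prop : Continuous fun a : ℝ => (P, a))
        · intro a ha; exact hsl 0 _ ha
      · intro n
        exact (hcl n).preimage (by fun_prop : Continuous fun a : ℝ => (P, a))
    obtain ⟨a, ha⟩ := hK
    have ha' : ∀ n, (P, a) ∈ region (sq n).1 := fun n => mem_iInter.1 ha n
    exact ⟨a, ⟨hP, hsl 0 _ (ha' 0)⟩, mem_iInter.2 ha'⟩
  · intro ε hε
    obtain ⟨n, hn⟩ := exists_nat_one_div_lt hε
    refine ⟨Fx n (sq n), h1 n (sq n), (h2 n (sq n)).trans hn.le, ?_⟩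
    rintro z ⟨_, hz⟩ x hx1 hx2
    have hz' := mem_iInter.1 hz (n + 1)
    rw [hsucc] at hz'
    obtain ⟨i, hi, hz1, hz2, hz3⟩ := hz'
    exact h5 n (sq n) i hi z.1 hz1 z.2 hz2 hz3 x hx1 hx2

end

end Pool.Agent.Run7.h542.BS
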