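import Mathlib
import Pool.Agent.Run7.h542.BS.Davies

set_option autoImplicit false

/-!
# Davies' covering with continuum many slopes at every point
-/

namespace Pool.Agent.Run7.h542.BS

open Set MeasureTheory Topology
open scoped Cardinal

noncomputable section

/-- refinement of a list of items, with two disjoint families of slopes -/
theorem refineL2 {N : Set (ℝ × ℝ)} (hN : IsCompact N) (h0 : volume N = 0) (L : List Item) :
    Adm (-2) 2 univ L → ∀ ε : ℝ, 0 < ε →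
    ∃ (L' : List Item) (F : List Blk), Bl F ∧ ar F ≤ ε ∧
      (∀ j ∈ L', ∃ i ∈ L, IsClosed j.1 ∧ j.1 ⊆ i.1 ∧ i.2.1 ≤ j.2.1 ∧ j.2.1 < j.2.2 ∧
        j.2.2 ≤ i.2.2 ∧ j.2.2 - j.2.1 ≤ (i.2.2 - i.2.1) / 3) ∧
      (∀ P ∈ N, ∀ i ∈ L, P ∈ i.1 → ∃ j ∈ L', ∃ k ∈ L', P ∈ j.1 ∧ P ∈ k.1 ∧ i.2.1 ≤ j.2.1 ∧
        j.2.2 < k.2.1 ∧ k.2.2 ≤ i.2.2) ∧ Covers L' F := by
  induction L with
  | nil =>
    intro _ ε hε
    exact ⟨[], [], by simp [Bl], by simpa [ar_nil] using hε.le, by simp, by simp, by simp [Covers]⟩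
  | cons i L ih =>
    intro hL ε hε
    obtain ⟨L1, F1, a1, a2, a3, a4, a5⟩ := ih (fun j hj => hL j (List.mem_cons_of_mem _ hj))
      (ε / 3) (by linarith)
    obtain ⟨c1, _, c3, c4, c5⟩ := hL i List.mem_cons_self
    obtain ⟨L2, F2, b1, b2, b3, b4, b5⟩ := refine1 hN h0 (A1 := i.2.1)
      (A2 := i.2.1 + (i.2.2 - i.2.1) / 3) c3 (by linarith) (by linarith)
      (show 0 < ε / 3 by linarith) c1
    obtain ⟨L3, F3, d1, d2, d3, d4, d5⟩ := refine1 hN h0 (A1 := i.2.2 - (i.2.2 - i.2.1) / 3)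
      (A2 := i.2.2) (by linarith) (by linarith) (by linarith) (show 0 < ε / 3 by linarith) c1
    refine ⟨L1 ++ (L2 ++ L3), F1 ++ (F2 ++ F3), Bl_append a1 (Bl_append b1 d1),
      by rw [ar_append, ar_append]; linarith, ?_, ?_, Covers_append a5 (Covers_append b5 d5)⟩
    · intro j hj
      rcases List.mem_append.1 hj with hj | hj
      · obtain ⟨i', hi', h⟩ := a3 j hj
        exact ⟨i', List.mem_cons_of_mem _ hi', h⟩
      · rcases List.mem_append.1 hj with hj | hj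
        · obtain ⟨e1, e2, e3, e4, e5⟩ := b3 j hj
          exact ⟨i, List.mem_cons_self, e1, e2, e3, e4, by linarith, by linarith⟩
        · obtain ⟨e1, e2, e3, e4, e5⟩ := d3 j hj
          exact ⟨i, List.mem_cons_self, e1, e2, by linarith, e4, e5, by linarith⟩
    · rintro P hP i' hi' hPi
      rcases List.mem_cons.1 hi' with rfl | hi'
      · obtain ⟨j, hj, hPj⟩ := b4 P hP hPi
        obtain ⟨k, hk, hPk⟩ := d4 P hP hPi
        obtain ⟨_, _, e3, e4, e5⟩ := b3 j hj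
        obtain ⟨_, _, f3, f4, f5⟩ := d3 k hk
        exact ⟨j, List.mem_append_right _ (List.mem_append_left _ hj), k,
          List.mem_append_right _ (List.mem_append_right _ hk), hPj, hPk, e3, by linarith, f5⟩
      · obtain ⟨j, hj, k, hk, h⟩ := a4 P hP i' hi' hPi
        exact ⟨j, List.mem_append_left _ hj, k, List.mem_append_left _ hk, h⟩

/-- Davies' theorem with continuum many slopes -/
theorem davies2 {N : Set (ℝ × ℝ)} (hN : IsCompact N) (h0 : volume N = 0) :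
    ∃ H : Set ((ℝ × ℝ) × ℝ), IsCompact H ∧ (∀ P ∈ N, 𝔠 ≤ #{a : ℝ | (P, a) ∈ H}) ∧
      ∀ ε : ℝ, 0 < ε → ∃ F : List Blk, Bl F ∧ ar F ≤ ε ∧ ∀ z ∈ H, ∀ x, z.1.1 ≤ x → x ≤ z.1.1 + 1 →
        cov F x (z.1.2 + z.2 * (x - z.1.1)) := by
  set X := {L : List Item // Adm (-2) 2 univ L} with hX
  have step : ∀ (n : ℕ) (L : X), ∃ (L' : X) (F : List Blk), Bl F ∧ ar F ≤ 1 / ((n : ℝ) + 1) ∧
      (region L'.1 ⊆ region L.1 ∧ ∀ j ∈ L'.1, ∃ i ∈ L.1, j.2.2 - j.2.1 ≤ (i.2.2 - i.2.1) / 3) ∧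
      (∀ P ∈ N, ∀ i ∈ L.1, P ∈ i.1 → ∃ j ∈ L'.1, ∃ k ∈ L'.1, P ∈ j.1 ∧ P ∈ k.1 ∧ i.2.1 ≤ j.2.1 ∧
        j.2.2 < k.2.1 ∧ k.2.2 ≤ i.2.2) ∧ Covers L'.1 F := by
    intro n L
    obtain ⟨L', F, h1, h2, h3, h4, h5⟩ := refineL2 hN h0 L.1 L.2 (1 / ((n : ℝ) + 1)) (by positivity)
    refine ⟨⟨L', ?_⟩, F, h1, h2, ⟨?_, ?_⟩, h4, h5⟩
    · intro j hj
      obtain ⟨i, hi, d1, _, d3, d4, d5, _⟩ := h3 j hj
      obtain ⟨c1, _, c3, c4, c5⟩ := L.2 i hi
      exact ⟨d1, subset_univ _, c3.trans d3, d4, d5.trans c5⟩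
    · rintro z ⟨j, hj, hz1, hz2, hz3⟩
      obtain ⟨i, hi, d1, d2, d3, d4, d5, _⟩ := h3 j hj
      exact ⟨i, hi, d2 hz1, d3.trans hz2, hz3.trans d5⟩
    · intro j hj
      obtain ⟨i, hi, d1, d2, d3, d4, d5, d6⟩ := h3 j hj
      exact ⟨i, hi, d6⟩
  choose nx Fx h1 h2 h3 h4 h5 using step
  set L0 : X := ⟨[(univ, -2, 2)], by
    intro i hi
    rw [List.mem_singleton] at hi
    subst hi
    exact ⟨isClosed_univ, subset_rfl, by norm_num, by norm_num, by norm_num⟩⟩ with hL0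
  set sq : ℕ → X := fun n => Nat.rec L0 (fun n L => nx n L) n with hsq
  have hsucc : ∀ n, sq (n + 1) = nx n (sq n) := fun n => rfl
  have hlen : ∀ n, ∀ i ∈ (sq n).1, i.2.2 - i.2.1 ≤ 4 / 3 ^ n := by
    intro n
    induction n with
    | zero =>
      intro i hi
      have : i = (univ, -2, 2) := List.mem_singleton.1 hi
      subst this
      norm_num
    | succ n ih =>
      intro j hj
      rw [hsucc] at hj
      obtain ⟨i, hi, h⟩ := (h3 n (sq n)).2 j hj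
      have := ih i hi
      rw [pow_succ]
      have e : (4 : ℝ) / (3 ^ n * 3) = (4 / 3 ^ n) / 3 := by field_simp
      rw [e]; linarith
  have hnest : ∀ n, region (sq (n + 1)).1 ⊆ region (sq n).1 := fun n => by
    rw [hsucc]; exact (h3 n (sq n)).1
  have hanti : ∀ m n, m ≤ n → region (sq n).1 ⊆ region (sq m).1 := by
    intro m n hmn
    induction n, hmn using Nat.le_induction with
    | base => exact subset_rfl
    | succ n _ ih => exact (hnest n).trans ih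
  have hcl : ∀ n, IsClosed (region (sq n).1) := fun n =>
    region_closed (fun i hi => ((sq n).2 i hi).1)
  have hsl : ∀ n, ∀ z ∈ region (sq n).1, z.2 ∈ Icc (-2 : ℝ) 2 := by
    rintro n z ⟨i, hi, _, hz2, hz3⟩
    obtain ⟨_, _, c3, c4, c5⟩ := (sq n).2 i hi
    exact ⟨c3.trans hz2, hz3.trans c5⟩
  -- a point below every item
  have hC : ∀ P ∈ N, ∀ n, ∀ i ∈ (sq n).1, P ∈ i.1 →
      ∃ a, (∀ m, (P, a) ∈ region (sq m).1) ∧ i.2.1 ≤ a ∧ a ≤ i.2.2 := by
    intro P hP n i hi hPi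
    have hdesc : ∀ m, ∃ j ∈ (sq (n + m)).1, P ∈ j.1 ∧ i.2.1 ≤ j.2.1 ∧ j.2.2 ≤ i.2.2 := by
      intro m
      induction m with
      | zero => exact ⟨i, hi, hPi, le_rfl, le_rfl⟩
      | succ m ih =>
        obtain ⟨j, hj, hPj, h6, h7⟩ := ih
        obtain ⟨j', hj', k', hk', g1, g2, g3, g4, g5⟩ := h4 (n + m) (sq (n + m)) P hP j hj hPj
        have hk'' := ((nx (n + m) (sq (n + m))).2 k' hk').2.2.2.1
        have hj'' := ((nx (n + m) (sq (n + m))).2 j' hj').2.2.2.1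
        exact ⟨j', hj', g1, h6.trans g3, by linarith⟩
    have hK : (⋂ m, {a : ℝ | (P, a) ∈ region (sq (n + m)).1 ∧ i.2.1 ≤ a ∧ a ≤ i.2.2}).Nonempty := by
      have hcl' : ∀ m, IsClosed {a : ℝ | (P, a) ∈ region (sq (n + m)).1 ∧ i.2.1 ≤ a ∧ a ≤ i.2.2} := by
        intro m
        have h1 : IsClosed {a : ℝ | (P, a) ∈ region (sq (n + m)).1} :=
          (hcl (n + m)).preimage (by fun_prop : Continuous fun a : ℝ => (P, a))
        exact h1.inter (isClosed_Icc (a := i.2.1) (b := i.2.2))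
      apply IsCompact.nonempty_iInter_of_sequence_nonempty_isCompact_isClosed
      · intro m a ha; exact ⟨hnest (n + m) ha.1, ha.2⟩
      · intro m
        obtain ⟨j, hj, hPj, h6, h7⟩ := hdesc m
        obtain ⟨_, _, _, c4, _⟩ := (sq (n + m)).2 j hj
        exact ⟨j.2.1, ⟨j, hj, hPj, le_rfl, c4.le⟩, h6, by linarith⟩
      · apply (isCompact_Icc (a := i.2.1) (b := i.2.2)).of_isClosed_subset (hcl' 0)
        intro a ha; exact ha.2
      · exact hcl'
    obtain ⟨a, ha⟩ := hK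
    have ha' := mem_iInter.1 ha
    refine ⟨a, fun m => ?_, (ha' 0).2⟩
    exact hanti m (n + m) (by omega) (ha' m).1
  refine ⟨(N ×ˢ Icc (-2 : ℝ) 2) ∩ ⋂ n, region (sq n).1, ?_, ?_, ?_⟩
  · exact (hN.prod isCompact_Icc).inter_right (isClosed_iInter hcl)
  · intro P hP
    set A : Set ℝ := {a : ℝ | ∀ m, (P, a) ∈ region (sq m).1} with hA
    have hAcl : IsClosed A := by
      have : A = ⋂ m, {a : ℝ | (P, a) ∈ region (sq m).1} := by
        ext a; simp [hA]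
      rw [this]
      exact isClosed_iInter (fun m =>
        (hcl m).preimage (by fun_prop : Continuous fun a : ℝ => (P, a)))
    have hne : A.Nonempty := by
      obtain ⟨a, ha, _⟩ := hC P hP 0 (univ, -2, 2) (List.mem_singleton.2 rfl) (mem_univ _)
      exact ⟨a, ha⟩
    have hperf : Perfect A := by
      refine ⟨hAcl, fun a ha => ?_⟩
      rw [accPt_iff_nhds]
      intro U hU
      obtain ⟨δ, hδ, hb⟩ := Metric.mem_nhds_iff.1 hU
      obtain ⟨n, hn⟩ := exists_pow_lt_of_lt_one (show 0 < δ / 4 by linarith)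
        (show (1 / 3 : ℝ) < 1 by norm_num)
      have hn' : (4 : ℝ) / 3 ^ n < δ := by
        have e : (4 : ℝ) / 3 ^ n = 4 * (1 / 3) ^ n := by
          rw [one_div, inv_pow]; ring
        rw [e]; linarith
      obtain ⟨i, hi, hPi, ha1, ha2⟩ := ha n
      simp only at hPi ha1 ha2
      have hl := hlen n i hi
      obtain ⟨j, hj, k, hk, g1, g2, g3, g4, g5⟩ := h4 n (sq n) P hP i hi hPi
      have hjj := ((nx n (sq n)).2 j hj).2.2.2.1
      have hkk := ((nx n (sq n)).2 k hk).2.2.2.1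
      obtain ⟨b, hbA, hb1, hb2⟩ := hC P hP (n + 1) j hj g1
      obtain ⟨c, hcA, hc1, hc2⟩ := hC P hP (n + 1) k hk g2
      by_cases hab : b = a
      · refine ⟨c, ⟨hb ?_, hcA⟩, by intro h; linarith⟩
        rw [Metric.mem_ball, Real.dist_eq, abs_lt]
        constructor <;> linarith
      · refine ⟨b, ⟨hb ?_, hbA⟩, hab⟩
        rw [Metric.mem_ball, Real.dist_eq, abs_lt]
        constructor <;> linarith
    obtain ⟨f, hf1, hf2, hf3⟩ := hperf.exists_nat_bool_injection hne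
    have hsub : A ⊆ {a : ℝ | (P, a) ∈ (N ×ˢ Icc (-2 : ℝ) 2) ∩ ⋂ n, region (sq n).1} := by
      intro a ha
      exact ⟨⟨hP, hsl 0 _ (ha 0)⟩, mem_iInter.2 ha⟩
    calc 𝔠 = #(ℕ → Bool) := by simp
      _ = #(range f) := (Cardinal.mk_range_eq f hf3).symm
      _ ≤ #A := Cardinal.mk_le_mk_of_subset hf1
      _ ≤ _ := Cardinal.mk_le_mk_of_subset hsub
  · intro ε hε
    obtain ⟨n, hn⟩ := exists_nat_one_div_lt hε
    refine ⟨Fx n (sq n), h1 n (sq n), (h2 n (sq n)).trans hn.le, ?_⟩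
    rintro z ⟨_, hz⟩ x hx1 hx2
    have hz' := mem_iInter.1 hz (n + 1)
    rw [hsucc] at hz'
    obtain ⟨i, hi, hz1, hz2, hz3⟩ := hz'
    exact h5 n (sq n) i hi z.1 hz1 z.2 hz2 hz3 x hx1 hx2

end

end Pool.Agent.Run7.h542.BS
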