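import Mathlib

set_option autoImplicit false

/-!
# A Lebesgue null set of positive strip content

The jump function `F t = ∑ ⌊4^k t⌋ / 8^k` is strictly increasing with
`F t' - F t ≥ (t' - t)^(3/2) / 6`, and its range on `[0,1)` is Lebesgue null.  The plane set
`{(x, x^2 + F s)}` is therefore null, while every strip of width `w` contains only `O(w)` of its
natural measure.
-/

namespace Pool.Agent.Run7.h542.BS

open MeasureTheory Set

noncomputable section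

/-- the jump function -/
def F (t : ℝ) : ℝ := ∑' k : ℕ, (⌊(4 : ℝ) ^ (k + 1) * t⌋ : ℝ) / 8 ^ (k + 1)

theorem summable_F (t : ℝ) : Summable (fun k : ℕ => (⌊(4 : ℝ) ^ (k + 1) * t⌋ : ℝ) / 8 ^ (k + 1)) := by
  have h1 : Summable (fun k : ℕ => (|t| + 1) * (1 / 2 : ℝ) ^ (k + 1)) := by
    apply Summable.mul_left
    have := summable_geometric_of_lt_one (by norm_num : (0 : ℝ) ≤ 1 / 2) (by norm_num)
    exact (summable_nat_add_iff 1).2 this
  refine Summable.of_norm_bounded h1 (fun k => ?_)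
  rw [Real.norm_eq_abs, abs_div, abs_of_pos (by positivity : (0 : ℝ) < 8 ^ (k + 1)),
    div_le_iff₀ (by positivity)]
  have e : (1 / 2 : ℝ) ^ (k + 1) * 8 ^ (k + 1) = 4 ^ (k + 1) := by
    rw [← mul_pow]; norm_num
  rw [mul_assoc, e]
  have h4 : (1 : ℝ) ≤ 4 ^ (k + 1) := one_le_pow₀ (by norm_num)
  have ha := Int.floor_le ((4 : ℝ) ^ (k + 1) * t)
  have hb := Int.lt_floor_add_one ((4 : ℝ) ^ (k + 1) * t)
  have hc : |(4 : ℝ) ^ (k + 1) * t| = 4 ^ (k + 1) * |t| := by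
    rw [abs_mul, abs_of_pos (by positivity : (0 : ℝ) < 4 ^ (k + 1))]
  have hd := neg_abs_le ((4 : ℝ) ^ (k + 1) * t)
  have he := le_abs_self ((4 : ℝ) ^ (k + 1) * t)
  rw [abs_le]
  constructor <;> nlinarith

theorem F_mono : Monotone F := by
  intro t t' h
  unfold F
  refine (summable_F t).tsum_le_tsum (fun k => ?_) (summable_F t')
  apply div_le_div_of_nonneg_right _ (by positivity)
  exact_mod_cast Int.floor_le_floor (mul_le_mul_of_nonneg_left h (by positivity))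

theorem F_term_le {t t' : ℝ} (h : t ≤ t') (k : ℕ) :
    ((⌊(4 : ℝ) ^ (k + 1) * t'⌋ : ℝ) - ⌊(4 : ℝ) ^ (k + 1) * t⌋) / 8 ^ (k + 1) ≤ F t' - F t := by
  unfold F
  rw [← (summable_F t').tsum_sub (summable_F t)]
  have := (((summable_F t').sub (summable_F t))).le_tsum k (fun j _ => ?_)
  · rw [sub_div]; exact this
  · rw [← sub_div]
    apply div_nonneg _ (by positivity)
    have : ⌊(4 : ℝ) ^ (j + 1) * t⌋ ≤ ⌊(4 : ℝ) ^ (j + 1) * t'⌋ :=
      Int.floor_le_floor (mul_le_mul_of_nonneg_left h (by positivity))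
    have : (⌊(4 : ℝ) ^ (j + 1) * t⌋ : ℝ) ≤ ⌊(4 : ℝ) ^ (j + 1) * t'⌋ := by exact_mod_cast this
    linarith

/-- quantitative strict monotonicity, in squared form -/
theorem F_gap {t t' : ℝ} (h : t < t') (h1 : t' - t ≤ 1) :
    (t' - t) * Real.sqrt (t' - t) / 8 ≤ F t' - F t := by
  set δ := t' - t with hδ
  have hδ0 : 0 < δ := by linarith
  obtain ⟨n, hn1, hn2⟩ : ∃ n : ℕ, 2 ≤ (4 : ℝ) ^ (n + 1) * δ ∧ (4 : ℝ) ^ n * δ < 2 := by
    have hex : ∃ n : ℕ, 2 ≤ (4 : ℝ) ^ n * δ := by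
      obtain ⟨n, hn⟩ := pow_unbounded_of_one_lt (2 / δ) (by norm_num : (1 : ℝ) < 4)
      exact ⟨n, by rw [div_lt_iff₀ hδ0] at hn; exact hn.le⟩
    classical
    have hm := Nat.find_spec hex
    have hmin := fun m hm => Nat.find_min hex (m := m) hm
    have h0 : Nat.find hex ≠ 0 := by
      intro h0
      rw [h0] at hm
      norm_num at hm
      linarith
    obtain ⟨n, hn⟩ := Nat.exists_eq_succ_of_ne_zero h0
    refine ⟨n, ?_, ?_⟩
    · rw [hn] at hm; exact hm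
    · have := hmin n (by omega)
      push Not at this
      exact this
  have hk := F_term_le h.le n
  refine le_trans ?_ hk
  have ha := Int.lt_floor_add_one ((4 : ℝ) ^ (n + 1) * t')
  have hb := Int.floor_le ((4 : ℝ) ^ (n + 1) * t)
  have hd : (4 : ℝ) ^ (n + 1) * δ / 2 ≤
      (⌊(4 : ℝ) ^ (n + 1) * t'⌋ : ℝ) - ⌊(4 : ℝ) ^ (n + 1) * t⌋ := by
    have : (4 : ℝ) ^ (n + 1) * t' - (4 : ℝ) ^ (n + 1) * t = 4 ^ (n + 1) * δ := by rw [hδ]; ring
    linarith
  refine le_trans ?_ (div_le_div_of_nonneg_right hd (by positivity))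
  -- sqrt δ ≤ 2 / 2^n
  have hs : Real.sqrt δ * 2 ^ n ≤ 2 := by
    have h2 : (Real.sqrt δ * 2 ^ n) ^ 2 ≤ 2 ^ 2 := by
      rw [mul_pow, Real.sq_sqrt hδ0.le, ← pow_mul, mul_comm n 2, pow_mul]
      norm_num
      linarith
    exact (abs_le_of_sq_le_sq' h2 (by norm_num)).2
  rw [le_div_iff₀ (by positivity)]
  have e8 : (8 : ℝ) ^ (n + 1) = 4 ^ (n + 1) * (2 * 2 ^ n) := by
    rw [show (8 : ℝ) = 4 * 2 by norm_num, mul_pow, pow_succ (2 : ℝ) n]; ring
  rw [e8]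
  have h4 : (0 : ℝ) < 4 ^ (n + 1) := by positivity
  have : δ * Real.sqrt δ / 8 * (4 ^ (n + 1) * (2 * 2 ^ n)) =
      (4 ^ (n + 1) * δ / 4) * (Real.sqrt δ * 2 ^ n) := by ring
  rw [this]
  have h5 : 0 ≤ (4 : ℝ) ^ (n + 1) * δ / 4 := by positivity
  nlinarith

end

end Pool.Agent.Run7.h542.BS
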