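import Mathlib
import Pool.Agent.Run7.h542.BS.Core

set_option autoImplicit false

namespace Pool.Agent.Run7.h542.BS

open MeasureTheory Set

noncomputable section

theorem tsum_half : ∑' k : ℕ, (1 / 2 : ℝ) ^ (k + 1) = 1 := by
  have h := tsum_geometric_of_lt_one (by norm_num : (0 : ℝ) ≤ 1 / 2) (by norm_num)
  have hs := summable_geometric_of_lt_one (by norm_num : (0 : ℝ) ≤ 1 / 2) (by norm_num)
  have e : (fun k : ℕ => (1 / 2 : ℝ) ^ (k + 1)) = fun k => (1 / 2) * (1 / 2 : ℝ) ^ k := by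
    funext k; rw [pow_succ]; ring
  rw [e, tsum_mul_left, h]
  norm_num

theorem summable_half : Summable (fun k : ℕ => (1 / 2 : ℝ) ^ (k + 1)) := by
  have hs := summable_geometric_of_lt_one (by norm_num : (0 : ℝ) ≤ 1 / 2) (by norm_num)
  exact (summable_nat_add_iff 1).2 hs

theorem F_add_int (t : ℝ) (j : ℤ) : F (t + j) = F t + j := by
  have e : ∀ k : ℕ, (⌊(4 : ℝ) ^ (k + 1) * (t + j)⌋ : ℝ) / 8 ^ (k + 1) =
      (⌊(4 : ℝ) ^ (k + 1) * t⌋ : ℝ) / 8 ^ (k + 1) + j * (1 / 2 : ℝ) ^ (k + 1) := by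
    intro k
    have h1 : (4 : ℝ) ^ (k + 1) * (t + j) = 4 ^ (k + 1) * t + ((4 ^ (k + 1) * j : ℤ) : ℝ) := by
      push_cast; ring
    rw [h1, Int.floor_add_intCast]
    push_cast
    rw [add_div]
    congr 1
    have h2 : (1 / 2 : ℝ) ^ (k + 1) = 4 ^ (k + 1) / 8 ^ (k + 1) := by
      rw [← div_pow]; norm_num
    rw [h2]
    ring
  unfold F
  simp_rw [e]
  rw [(summable_F t).tsum_add (summable_half.mul_left _), tsum_mul_left, tsum_half, mul_one]

theorem F_four (t : ℝ) : F t = (⌊4 * t⌋ + F (4 * t)) / 8 := by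
  have h := (summable_F t).tsum_eq_zero_add
  have e : F t = ∑' k : ℕ, (⌊(4 : ℝ) ^ (k + 1) * t⌋ : ℝ) / 8 ^ (k + 1) := rfl
  rw [e, h]
  have e2 : ∀ k : ℕ, (⌊(4 : ℝ) ^ (k + 1 + 1) * t⌋ : ℝ) / 8 ^ (k + 1 + 1) =
      ((⌊(4 : ℝ) ^ (k + 1) * (4 * t)⌋ : ℝ) / 8 ^ (k + 1)) * (1 / 8) := by
    intro k
    have : (4 : ℝ) ^ (k + 1 + 1) * t = 4 ^ (k + 1) * (4 * t) := by ring
    rw [this, pow_succ (8 : ℝ) (k + 1)]
    field_simp
  simp_rw [e2]
  rw [tsum_mul_right]
  unfold F
  norm_num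
  ring

theorem F_zero : F 0 = 0 := by
  unfold F; simp

theorem F_one : F 1 = 1 := by
  have := F_add_int 0 1
  rw [F_zero] at this
  simpa using this

theorem F_mem {t : ℝ} (h0 : 0 ≤ t) (h1 : t ≤ 1) : 0 ≤ F t ∧ F t ≤ 1 := by
  constructor
  · rw [← F_zero]; exact F_mono h0
  · rw [← F_one]; exact F_mono h1

/-- the closure of the range of `F` on `[0,1)` is null -/
theorem range_null : volume (closure (F '' Ico 0 1)) = 0 := by
  set R0 := F '' Ico (0 : ℝ) 1 with hR0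
  set R := closure R0 with hR
  have hfin : volume R ≠ ⊤ := by
    have hsub : R ⊆ Icc 0 1 := by
      apply closure_minimal _ isClosed_Icc
      rintro _ ⟨t, ht, rfl⟩
      exact F_mem ht.1 ht.2.le
    refine ne_top_of_le_ne_top ?_ (measure_mono hsub)
    rw [Real.volume_Icc]
    exact ENNReal.ofReal_ne_top
  have hcov : R ⊆ ⋃ j : Fin 4, (fun y : ℝ => 8 * y) ⁻¹' ((fun y => y + (-(2 * (j : ℝ)))) ⁻¹' R) := by
    apply closure_minimal
    swap
    · apply isClosed_iUnion_of_finite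
      intro j
      apply IsClosed.preimage (by fun_prop)
      exact IsClosed.preimage (by fun_prop) isClosed_closure
    rintro _ ⟨t, ht, rfl⟩
    have hf0 : 0 ≤ ⌊4 * t⌋ := Int.floor_nonneg.2 (by linarith [ht.1])
    have hf4 : ⌊4 * t⌋ < 4 := by
      rw [Int.floor_lt]; push_cast; linarith [ht.2]
    obtain ⟨n, hn⟩ := Int.eq_ofNat_of_zero_le hf0
    have hn4 : n < 4 := by omega
    refine mem_iUnion.2 ⟨⟨n, hn4⟩, ?_⟩
    simp only [mem_preimage]
    apply subset_closure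
    refine ⟨4 * t - ⌊4 * t⌋, ⟨?_, ?_⟩, ?_⟩
    · linarith [Int.floor_le (4 * t)]
    · linarith [Int.lt_floor_add_one (4 * t)]
    · have h1 := F_four t
      have h2 := F_add_int (4 * t - ⌊4 * t⌋) ⌊4 * t⌋
      rw [sub_add_cancel] at h2
      have h3 : ((⌊4 * t⌋ : ℤ) : ℝ) = (n : ℝ) := by rw [hn]; simp
      rw [h3] at h1 h2 ⊢
      rw [h2] at h1
      rw [h1]
      ring
  have hle : volume R ≤ volume R / 2 := by
    calc volume R ≤ ∑ j : Fin 4, volume ((fun y : ℝ => 8 * y) ⁻¹' ((fun y => y + (-(2 * (j : ℝ)))) ⁻¹' R)) :=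
          (measure_mono hcov).trans (measure_iUnion_fintype_le _ _)
      _ = ∑ j : Fin 4, ENNReal.ofReal |(8 : ℝ)⁻¹| * volume R := by
          refine Finset.sum_congr rfl (fun j _ => ?_)
          rw [Real.volume_preimage_mul_left (by norm_num : (8 : ℝ) ≠ 0),
            measure_preimage_add_right]
      _ = volume R / 2 := by
          rw [Finset.sum_const, Finset.card_univ, Fintype.card_fin, nsmul_eq_mul, ← mul_assoc]
          have : ((4 : ℕ) : ENNReal) * ENNReal.ofReal |(8 : ℝ)⁻¹| = 2⁻¹ := by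
            rw [show ((4 : ℕ) : ENNReal) = ENNReal.ofReal 4 by norm_num,
              ← ENNReal.ofReal_mul (by norm_num),
              show (2 : ENNReal)⁻¹ = ENNReal.ofReal (2⁻¹) by
                rw [ENNReal.ofReal_inv_of_pos (by norm_num)]; norm_num]
            congr 1
            rw [abs_of_pos (by norm_num)]; norm_num
          rw [this, mul_comm, ENNReal.div_eq_inv_mul, mul_comm]
  by_contra hne
  exact absurd hle (not_le.2 (ENNReal.half_lt_self hne hfin))

end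

end Pool.Agent.Run7.h542.BS
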