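import Mathlib
import Pool.Agent.Run7.h542.BS.Null

set_option autoImplicit false

namespace Pool.Agent.Run7.h542.BS

open MeasureTheory Set

noncomputable section

theorem sqrt_diff {A W : ℝ} (hW : 0 ≤ W) (h : 0 < A + W) :
    Real.sqrt (A + W) - Real.sqrt A ≤ W / Real.sqrt (A + W) := by
  have h1 : 0 < Real.sqrt (A + W) := Real.sqrt_pos.2 h
  rw [le_div_iff₀ h1]
  have h2 : Real.sqrt (A + W) * Real.sqrt (A + W) = A + W := Real.mul_self_sqrt h.le
  have h3 : 0 ≤ Real.sqrt A := Real.sqrt_nonneg A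
  have h4 : Real.sqrt A ≤ Real.sqrt (A + W) := Real.sqrt_le_sqrt (by linarith)
  rcases le_total 0 A with hA | hA
  · have h5 : Real.sqrt A * Real.sqrt A = A := Real.mul_self_sqrt hA
    nlinarith
  · rw [Real.sqrt_eq_zero_of_nonpos hA]
    nlinarith

theorem sec_bound (m A W : ℝ) (hW : 0 ≤ W) :
    volume {x : ℝ | A ≤ (x + m) ^ 2 ∧ (x + m) ^ 2 ≤ A + W} ≤
      ENNReal.ofReal (2 * (Real.sqrt (A + W) - Real.sqrt A)) := by
  have hsub : {x : ℝ | A ≤ (x + m) ^ 2 ∧ (x + m) ^ 2 ≤ A + W} ⊆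
      Icc (Real.sqrt A - m) (Real.sqrt (A + W) - m) ∪
      Icc (-Real.sqrt (A + W) - m) (-Real.sqrt A - m) := by
    rintro x ⟨h1, h2⟩
    have h3 : Real.sqrt A ≤ |x + m| := by
      rw [← Real.sqrt_sq_eq_abs]; exact Real.sqrt_le_sqrt h1
    have h4 : |x + m| ≤ Real.sqrt (A + W) := by
      rw [← Real.sqrt_sq_eq_abs]; exact Real.sqrt_le_sqrt h2
    rcases le_total 0 (x + m) with h | h
    · rw [abs_of_nonneg h] at h3 h4
      exact Or.inl ⟨by linarith, by linarith⟩
    · rw [abs_of_nonpos h] at h3 h4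
      exact Or.inr ⟨by linarith, by linarith⟩
  refine (measure_mono hsub).trans ((measure_union_le _ _).trans ?_)
  rw [Real.volume_Icc, Real.volume_Icc]
  have h4 : Real.sqrt A ≤ Real.sqrt (A + W) := Real.sqrt_le_sqrt (by linarith)
  rw [← ENNReal.ofReal_add (by linarith) (by linarith)]
  apply ENNReal.ofReal_le_ofReal
  linarith

theorem int_bound {a : ℝ} (h1 : a ≤ 1) :
    ∫⁻ s in Ioo 0 a, ENNReal.ofReal ((a - s) ^ (-(3 / 4) : ℝ)) ≤ ENNReal.ofReal 4 := by
  rcases le_or_gt a 0 with h0 | h0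
  · rw [Ioo_eq_empty (by linarith)]; simp
  have hii : IntervalIntegrable (fun x : ℝ => x ^ (-(3 / 4) : ℝ)) volume 0 a :=
    intervalIntegral.intervalIntegrable_rpow' (by norm_num)
  have hii2 : IntervalIntegrable (fun s : ℝ => (a - s) ^ (-(3 / 4) : ℝ)) volume 0 a := by
    have := hii.comp_sub_left a
    simp only [sub_zero, sub_self] at this
    exact this.symm
  have hint : IntegrableOn (fun s : ℝ => (a - s) ^ (-(3 / 4) : ℝ)) (Ioo 0 a) volume := by
    rw [intervalIntegrable_iff_integrableOn_Ioo_of_le h0.le] at hii2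
    exact hii2
  rw [← ofReal_integral_eq_lintegral_ofReal hint]
  · apply ENNReal.ofReal_le_ofReal
    rw [← integral_Ioc_eq_integral_Ioo, ← intervalIntegral.integral_of_le h0.le,
      intervalIntegral.integral_comp_sub_left (fun x : ℝ => x ^ (-(3 / 4) : ℝ)) a,
      sub_self, sub_zero, integral_rpow (Or.inl (by norm_num))]
    norm_num
    have : a ^ ((1 : ℝ) / 4) ≤ 1 := Real.rpow_le_one h0.le h1 (by norm_num)
    have h3 : (0 : ℝ) ^ ((1 : ℝ) / 4) = 0 := Real.zero_rpow (by norm_num)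
    norm_num at this h3 ⊢
    linarith
  · filter_upwards [ae_restrict_mem measurableSet_Ioo] with s hs
    exact Real.rpow_nonneg (by linarith [hs.2]) _

/-- the upper section function -/
def gg (κ W s : ℝ) : ENNReal :=
  if F s < κ then ENNReal.ofReal (2 * (W / Real.sqrt (κ - F s))) else 0

theorem gg_int (κ W : ℝ) (hW : 0 ≤ W) :
    ∫⁻ s in Ico 0 1, gg κ W s ≤ ENNReal.ofReal (40 * W) := by
  set T : Set ℝ := {s | s ∈ Ico (0 : ℝ) 1 ∧ F s < κ} with hT
  rcases T.eq_empty_or_nonempty with hE | hne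
  · have : ∫⁻ s in Ico (0 : ℝ) 1, gg κ W s = 0 := by
      rw [← lintegral_zero (μ := volume.restrict (Ico (0 : ℝ) 1))]
      apply setLIntegral_congr_fun measurableSet_Ico
      intro s hs
      have : s ∉ T := by rw [hE]; simp
      simp only [gg]
      rw [if_neg]
      intro h; exact this ⟨hs, h⟩
    rw [this]; exact zero_le
  have hbdd : BddAbove T := ⟨1, fun s hs => hs.1.2.le⟩
  set a := sSup T with ha
  have ha1 : a ≤ 1 := csSup_le hne (fun s hs => hs.1.2.le)
  have hle : ∀ s ∈ T, s ≤ a := fun s hs => le_csSup hbdd hs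
  -- pointwise bound
  have hpt : ∀ s ∈ Ico (0 : ℝ) 1, s ≠ 0 → s ≠ a → gg κ W s ≤
      (Ioo 0 a).indicator (fun s => ENNReal.ofReal (10 * W) * ENNReal.ofReal ((a - s) ^ (-(3 / 4) : ℝ))) s := by
    intro s hs hs0 hsa
    unfold gg
    split_ifs with h
    · have hsT : s ∈ T := ⟨hs, h⟩
      have hlt : s < a := lt_of_le_of_ne (hle s hsT) hsa
      have hs0' : 0 < s := lt_of_le_of_ne hs.1 (Ne.symm hs0)
      rw [indicator_of_mem (show s ∈ Ioo 0 a from ⟨hs0', hlt⟩), ← ENNReal.ofReal_mul (by positivity)]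
      apply ENNReal.ofReal_le_ofReal
      set d := a - s with hd
      have hd0 : 0 < d := by linarith
      obtain ⟨s', hs', hs'2⟩ := exists_lt_of_lt_csSup hne (show s + d / 2 < a by linarith)
      have hgap := F_gap (show s < s' by linarith) (by linarith [hs'.1.2, hs.1])
      have h2 : d / 2 * Real.sqrt (d / 2) / 8 ≤ κ - F s := by
        have h3 : Real.sqrt (d / 2) ≤ Real.sqrt (s' - s) := Real.sqrt_le_sqrt (by linarith)
        have h4 : d / 2 * Real.sqrt (d / 2) ≤ (s' - s) * Real.sqrt (s' - s) :=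
          mul_le_mul (by linarith) h3 (Real.sqrt_nonneg _) (by linarith)
        linarith [hs'.2]
      have h5 : (d ^ ((3 : ℝ) / 4) / 5) ^ 2 ≤ κ - F s := by
        refine le_trans ?_ h2
        have e1 : (d ^ ((3 : ℝ) / 4)) ^ 2 = d * Real.sqrt d := by
          rw [← Real.rpow_natCast, ← Real.rpow_mul hd0.le, Real.sqrt_eq_rpow]
          nth_rewrite 2 [← Real.rpow_one d]
          rw [← Real.rpow_add hd0]
          norm_num
        rw [div_pow, e1, Real.sqrt_div hd0.le]
        have h6 : Real.sqrt 2 ≤ 3 / 2 := by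
          rw [Real.sqrt_le_left (by norm_num)]; norm_num
        have h7 : 0 < Real.sqrt 2 := by positivity
        have h8 : 0 ≤ d * Real.sqrt d := by positivity
        have e2 : d / 2 * (Real.sqrt d / Real.sqrt 2) / 8 = (d * Real.sqrt d) / (16 * Real.sqrt 2) := by
          field_simp; ring
        rw [e2]
        apply div_le_div_of_nonneg_left h8 (by positivity)
        linarith
      have hp : 0 < d ^ ((3 : ℝ) / 4) := Real.rpow_pos_of_pos hd0 _
      have h9 : d ^ ((3 : ℝ) / 4) / 5 ≤ Real.sqrt (κ - F s) := by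
        apply Real.le_sqrt_of_sq_le h5
      have h10 : W / Real.sqrt (κ - F s) ≤ W / (d ^ ((3 : ℝ) / 4) / 5) :=
        div_le_div_of_nonneg_left hW (by positivity) h9
      rw [Real.rpow_neg hd0.le]
      calc 2 * (W / Real.sqrt (κ - F s)) ≤ 2 * (W / (d ^ ((3 : ℝ) / 4) / 5)) := by linarith
        _ = 10 * W * (d ^ ((3 : ℝ) / 4))⁻¹ := by field_simp; ring
    · exact zero_le
  have hae : ∀ᵐ s ∂(volume.restrict (Ico (0 : ℝ) 1)), gg κ W s ≤
      (Ioo 0 a).indicator (fun s => ENNReal.ofReal (10 * W) * ENNReal.ofReal ((a - s) ^ (-(3 / 4) : ℝ))) s := by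
    have h0 : ∀ᵐ s ∂(volume.restrict (Ico (0 : ℝ) 1)), s ≠ 0 :=
      ae_restrict_of_ae (Measure.ae_ne volume 0)
    have h1 : ∀ᵐ s ∂(volume.restrict (Ico (0 : ℝ) 1)), s ≠ a :=
      ae_restrict_of_ae (Measure.ae_ne volume a)
    filter_upwards [ae_restrict_mem measurableSet_Ico, h0, h1] with s hs hs0 hs1
    exact hpt s hs hs0 hs1
  calc ∫⁻ s in Ico 0 1, gg κ W s ≤ ∫⁻ s in Ico (0 : ℝ) 1, (Ioo 0 a).indicator
        (fun s => ENNReal.ofReal (10 * W) * ENNReal.ofReal ((a - s) ^ (-(3 / 4) : ℝ))) s :=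
        lintegral_mono_ae hae
    _ ≤ ∫⁻ s, (Ioo 0 a).indicator
        (fun s => ENNReal.ofReal (10 * W) * ENNReal.ofReal ((a - s) ^ (-(3 / 4) : ℝ))) s :=
        setLIntegral_le_lintegral _ _
    _ = ENNReal.ofReal (10 * W) * ∫⁻ s in Ioo 0 a, ENNReal.ofReal ((a - s) ^ (-(3 / 4) : ℝ)) := by
        rw [lintegral_indicator measurableSet_Ioo, lintegral_const_mul']
        exact ENNReal.ofReal_ne_top
    _ ≤ ENNReal.ofReal (10 * W) * ENNReal.ofReal 4 := by gcongr; exact int_bound ha1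
    _ = ENNReal.ofReal (40 * W) := by
        rw [← ENNReal.ofReal_mul (by positivity)]; congr 1; ring

/-- the preimage of a strip in the parameter square -/
def P (u0 u1 c w : ℝ) : Set (ℝ × ℝ) :=
  {z | z.1 ∈ Ico (0 : ℝ) 1 ∧ z.2 ∈ Icc (-(1 / 4) : ℝ) (1 / 4) ∧
    c ≤ u0 * z.2 + u1 * (z.2 ^ 2 + F z.1) ∧ u0 * z.2 + u1 * (z.2 ^ 2 + F z.1) ≤ c + w}

theorem P_meas (u0 u1 c w : ℝ) : MeasurableSet (P u0 u1 c w) := by
  have hF : Measurable F := F_mono.measurable
  have hF1 : Measurable (fun z : ℝ × ℝ => F z.1) := hF.comp measurable_fst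
  have hg : Measurable (fun z : ℝ × ℝ => u0 * z.2 + u1 * (z.2 ^ 2 + F z.1)) := by
    fun_prop
  have e : P u0 u1 c w = (Prod.fst ⁻¹' Ico (0 : ℝ) 1) ∩ (Prod.snd ⁻¹' Icc (-(1 / 4) : ℝ) (1 / 4)) ∩
      ((fun z : ℝ × ℝ => u0 * z.2 + u1 * (z.2 ^ 2 + F z.1)) ⁻¹' Icc c (c + w)) := by
    ext z
    simp only [P, mem_ofPred_eq, mem_inter_iff, mem_preimage, mem_Icc]
    tauto
  rw [e]
  exact ((measurable_fst measurableSet_Ico).inter (measurable_snd measurableSet_Icc)).inter
    (hg measurableSet_Icc)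

theorem P_neg (u0 u1 c w : ℝ) : P u0 u1 c w = P (-u0) (-u1) (-c - w) w := by
  ext z
  simp only [P, mem_ofPred_eq]
  constructor
  · rintro ⟨h1, h2, h3, h4⟩
    exact ⟨h1, h2, by nlinarith, by nlinarith⟩
  · rintro ⟨h1, h2, h3, h4⟩
    exact ⟨h1, h2, by nlinarith, by nlinarith⟩

theorem P_steep {u0 u1 c w : ℝ} (hw : 0 ≤ w) (hu : 7 / 10 ≤ u1) :
    volume (P u0 u1 c w) ≤ ENNReal.ofReal (60 * w) := by
  have hu0 : 0 < u1 := by linarith
  rw [Measure.volume_eq_prod, Measure.prod_apply (P_meas _ _ _ _)]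
  set m := u0 / (2 * u1) with hm
  set W := w / u1 with hWd
  have hW : 0 ≤ W := div_nonneg hw hu0.le
  set κ := c / u1 + m ^ 2 + W with hκ
  have hsec : ∀ s, volume (Prod.mk s ⁻¹' P u0 u1 c w) ≤ (Ico (0 : ℝ) 1).indicator (gg κ W) s := by
    intro s
    by_cases hs : s ∈ Ico (0 : ℝ) 1
    · rw [indicator_of_mem hs]
      have hsub : Prod.mk s ⁻¹' P u0 u1 c w ⊆
          {x : ℝ | (κ - F s - W) ≤ (x + m) ^ 2 ∧ (x + m) ^ 2 ≤ (κ - F s - W) + W} := by
        rintro x ⟨_, _, h3, h4⟩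
        simp only at h3 h4
        have e : u0 * x + u1 * (x ^ 2 + F s) = u1 * ((x + m) ^ 2 - m ^ 2 + F s) := by
          rw [hm]; field_simp; ring
        rw [e] at h3 h4
        have h5 : c / u1 ≤ (x + m) ^ 2 - m ^ 2 + F s := by
          rw [div_le_iff₀ hu0]; linarith
        have h6 : (x + m) ^ 2 - m ^ 2 + F s ≤ c / u1 + W := by
          rw [hWd, ← add_div, le_div_iff₀ hu0]; linarith
        constructor <;> linarith
      refine (measure_mono hsub).trans ?_
      unfold gg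
      split_ifs with h
      · refine (sec_bound m _ W hW).trans ?_
        apply ENNReal.ofReal_le_ofReal
        have h7 := sqrt_diff (A := κ - F s - W) hW (by linarith)
        rw [sub_add_cancel] at h7 ⊢
        linarith
      · have : {x : ℝ | (κ - F s - W) ≤ (x + m) ^ 2 ∧ (x + m) ^ 2 ≤ (κ - F s - W) + W} ⊆ {-m} := by
          rintro x ⟨_, h2⟩
          push Not at h
          have h3 : (x + m) ^ 2 ≤ 0 := by linarith
          have h4 : x + m = 0 := by
            have := sq_nonneg (x + m)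
            exact pow_eq_zero_iff (two_ne_zero) |>.1 (le_antisymm h3 this)
          simp only [mem_singleton_iff]; linarith
        refine (measure_mono this).trans ?_
        simp
    · rw [indicator_of_notMem hs]
      have : Prod.mk s ⁻¹' P u0 u1 c w = ∅ := by
        ext x
        simp only [mem_preimage, mem_empty_iff_false, iff_false]
        intro hx; exact hs hx.1
      rw [this]; simp
  calc ∫⁻ s, volume (Prod.mk s ⁻¹' P u0 u1 c w) ≤ ∫⁻ s, (Ico (0 : ℝ) 1).indicator (gg κ W) s :=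
        lintegral_mono hsec
    _ = ∫⁻ s in Ico 0 1, gg κ W s := lintegral_indicator measurableSet_Ico _
    _ ≤ ENNReal.ofReal (40 * W) := gg_int κ W hW
    _ ≤ ENNReal.ofReal (60 * w) := by
        apply ENNReal.ofReal_le_ofReal
        rw [hWd, mul_div_assoc', div_le_iff₀ hu0]
        nlinarith

theorem P_flat {u0 u1 c w : ℝ} (hw : 0 ≤ w) (hu : 7 / 10 ≤ u0) (hu1 : |u1| ≤ 7 / 10) :
    volume (P u0 u1 c w) ≤ ENNReal.ofReal (60 * w) := by
  rw [Measure.volume_eq_prod, Measure.prod_apply (P_meas _ _ _ _)]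
  have hsec : ∀ s, volume (Prod.mk s ⁻¹' P u0 u1 c w) ≤
      (Ico (0 : ℝ) 1).indicator (fun _ => ENNReal.ofReal (60 * w)) s := by
    intro s
    by_cases hs : s ∈ Ico (0 : ℝ) 1
    · rw [indicator_of_mem hs]
      refine (Real.volume_le_diam _).trans ?_
      apply Metric.ediam_le
      rintro x ⟨_, hx, hx1, hx2⟩ y ⟨_, hy, hy1, hy2⟩
      simp only at hx hx1 hx2 hy hy1 hy2
      rw [edist_dist]
      apply ENNReal.ofReal_le_ofReal
      rw [Real.dist_eq]
      rw [abs_le] at hu1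
      have hxy : |x + y| ≤ 1 / 2 := by
        rw [abs_le]; constructor <;> linarith [hx.1, hx.2, hy.1, hy.2]
      rw [abs_le] at hxy
      have h1 : 7 / 20 ≤ u0 + u1 * (x + y) := by nlinarith
      have e : (u0 * x + u1 * (x ^ 2 + F s)) - (u0 * y + u1 * (y ^ 2 + F s)) =
          (x - y) * (u0 + u1 * (x + y)) := by ring
      have h2 : |(x - y) * (u0 + u1 * (x + y))| ≤ w := by
        rw [← e, abs_le]; constructor <;> linarith
      rw [abs_mul, abs_of_pos (by linarith : 0 < u0 + u1 * (x + y))] at h2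
      nlinarith [abs_nonneg (x - y)]
    · rw [indicator_of_notMem hs]
      have : Prod.mk s ⁻¹' P u0 u1 c w = ∅ := by
        ext x
        simp only [mem_preimage, mem_empty_iff_false, iff_false]
        intro hx; exact hs hx.1
      rw [this]; simp
  calc ∫⁻ s, volume (Prod.mk s ⁻¹' P u0 u1 c w) ≤
        ∫⁻ s, (Ico (0 : ℝ) 1).indicator (fun _ => ENNReal.ofReal (60 * w)) s :=
        lintegral_mono hsec
    _ = ENNReal.ofReal (60 * w) := by
        rw [lintegral_indicator measurableSet_Ico]; simp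

/-- every strip of width `w` catches at most `60 w` of the parameter square -/
theorem P_bound {u0 u1 c w : ℝ} (hw : 0 ≤ w) (hu : u0 ^ 2 + u1 ^ 2 = 1) :
    volume (P u0 u1 c w) ≤ ENNReal.ofReal (60 * w) := by
  rcases le_or_gt (7 / 10) |u1| with h | h
  · rcases le_total 0 u1 with h1 | h1
    · rw [abs_of_nonneg h1] at h; exact P_steep hw h
    · rw [abs_of_nonpos h1] at h; rw [P_neg]; exact P_steep hw h
  · have h2 : 7 / 10 ≤ |u0| := by
      by_contra hc
      push Not at hc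
      have h3 : u0 ^ 2 < 49 / 100 := by
        rw [← sq_abs]; nlinarith [abs_nonneg u0]
      have h4 : u1 ^ 2 < 49 / 100 := by
        rw [← sq_abs u1]; nlinarith [abs_nonneg u1]
      linarith
    rcases le_total 0 u0 with h1 | h1
    · rw [abs_of_nonneg h1] at h2; exact P_flat hw h2 h.le
    · rw [abs_of_nonpos h1] at h2; rw [P_neg]
      exact P_flat hw h2 (by rw [abs_neg]; exact h.le)

end

end Pool.Agent.Run7.h542.BS
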