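import Mathlib
import Pool.Agent.Results.MP_6b55e5_an.RogersQ2

set_option autoImplicit false

/-!
# A compact Besicovitch set

From the covering theorem `good_zero` of the starting file on Rogers' second question.
-/

namespace Pool.Agent.Run7.h542.BS

open MeasureTheory Set
open Pool.Agent.Results.MP_6b55e5_an.RogersQ2

noncomputable section

/-- the rectangle of lines `y = a x + b`, `α ≤ a ≤ β`, `|b - c| ≤ ρ`, coded by `(α, β, c, ρ)` -/
def rect (R : ℝ × ℝ × ℝ × ℝ) : Set (ℝ × ℝ) :=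
  Icc R.1 R.2.1 ×ˢ Icc (R.2.2.1 - R.2.2.2) (R.2.2.1 + R.2.2.2)

/-- the union of a list of rectangles -/
def reg (L : List (ℝ × ℝ × ℝ × ℝ)) : Set (ℝ × ℝ) := {g | ∃ R ∈ L, g ∈ rect R}

def Pos (L : List (ℝ × ℝ × ℝ × ℝ)) : Prop := ∀ R ∈ L, R.1 < R.2.1 ∧ 0 < R.2.2.2

theorem reg_compact (L : List (ℝ × ℝ × ℝ × ℝ)) : IsCompact (reg L) := by
  induction L with
  | nil =>
    have : reg [] = ∅ := by ext g; simp [reg]
    rw [this]; exact isCompact_empty
  | cons R L ih =>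
    have : reg (R :: L) = rect R ∪ reg L := by ext g; simp [reg]
    rw [this]
    exact (isCompact_Icc.prod isCompact_Icc).union ih

/-- refinement of one rectangle -/
theorem refine_one (R : ℝ × ℝ × ℝ × ℝ) (h1 : R.1 < R.2.1) (h2 : 0 < R.2.2.2) (ε : ℝ) (hε : 0 < ε) :
    ∃ (L : List (ℝ × ℝ × ℝ × ℝ)) (F : List (ℝ × ℝ × ℝ)), Pos L ∧ (∀ f ∈ F, 0 < f.2.2) ∧ tot F ≤ ε ∧
      (∀ a, R.1 ≤ a → a ≤ R.2.1 → ∃ R' ∈ L, R'.1 ≤ a ∧ a ≤ R'.2.1) ∧
      reg L ⊆ rect R ∧
      ∀ g ∈ reg L, ∀ x, 0 ≤ x → x ≤ 1 → blk F g.1 g.2 x := by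
  obtain ⟨α, β, c, ρ⟩ := R
  simp only at h1 h2 ⊢
  set η := min (ρ / 4) (ε / (2 * (β - α))) with hη
  have hba : 0 < β - α := by linarith
  have hη0 : 0 < η := lt_min (by linarith) (by positivity)
  obtain ⟨F, hF0, hF1, hF2⟩ := good_zero α β c η h1 hη0
  set N : ℝ := (F.length : ℝ) with hN
  have hN0 : 0 ≤ N := Nat.cast_nonneg _
  set r : ℝ := min (ρ / 2) (ε / (2 * (N + 1))) with hr
  have hr0 : 0 < r := lt_min (by linarith) (by positivity)
  have htot : tot F ≤ ε / 2 := by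
    refine hF1.trans ?_
    have h3 : η ≤ ε / (2 * (β - α)) := min_le_right _ _
    rw [le_div_iff₀ (by positivity)] at h3
    linarith
  have hNr : N * r ≤ ε / 2 := by
    have h3 : r ≤ ε / (2 * (N + 1)) := min_le_right _ _
    rw [le_div_iff₀ (by positivity)] at h3
    nlinarith
  choose! b hb1 hb2 using fun a => fun (ha : α ≤ a) => fun (ha' : a ≤ β) => hF2 a ha ha'
  obtain ⟨m, hm⟩ := exists_nat_gt ((β - α) / (r / 2))
  rw [div_lt_iff₀ (by positivity)] at hm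
  have hm0 : 0 < (m : ℝ) := by
    by_contra hc
    push Not at hc
    nlinarith
  set st : ℝ := (β - α) / m with hst
  have hst0 : 0 < st := by positivity
  have hst1 : st ≤ r / 2 := by
    rw [hst, div_le_iff₀ hm0]; linarith
  have hmst : (m : ℝ) * st = β - α := by rw [hst]; field_simp
  set mk : ℕ → ℝ × ℝ × ℝ × ℝ := fun j => (α + j * st, α + (j + 1) * st, b (α + j * st), r / 2) with hmk
  have hgrid : ∀ j < m, α ≤ α + j * st ∧ α + j * st ≤ β ∧ α + (j + 1) * st ≤ β := by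
    intro j hj
    have h3 : ((j : ℝ) + 1) ≤ m := by exact_mod_cast hj
    have h4 : (0 : ℝ) ≤ j := Nat.cast_nonneg j
    refine ⟨by nlinarith, by nlinarith, by nlinarith⟩
  refine ⟨(List.range m).map mk, F.map (fun f => (f.1, f.2.1, f.2.2 + r)), ?_, ?_, ?_, ?_, ?_, ?_⟩
  · intro R hR
    obtain ⟨j, hj, rfl⟩ := List.mem_map.1 hR
    simp only [hmk]
    exact ⟨by nlinarith, by positivity⟩
  · intro f hf
    rw [List.mem_map] at hf
    obtain ⟨g, hg, rfl⟩ := hf
    have := hF0 g hg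
    simp only
    linarith
  · have e : tot (F.map (fun f => (f.1, f.2.1, f.2.2 + r))) = tot F + N * r := by
      simp only [tot, List.map_map, hN]
      have : ((fun f : ℝ × ℝ × ℝ => f.2.2) ∘ fun f : ℝ × ℝ × ℝ => (f.1, f.2.1, f.2.2 + r)) =
        fun f => f.2.2 + r := rfl
      rw [this, List.sum_map_add]
      simp
    rw [e]; linarith
  · intro a ha1 ha2
    -- index of the cell
    rcases eq_or_lt_of_le ha2 with rfl | ha3
    · have hmp : 0 < m := by exact_mod_cast hm0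
      refine ⟨mk (m - 1), List.mem_map.2 ⟨m - 1, List.mem_range.2 (by omega), rfl⟩, ?_, ?_⟩
      · simp only [hmk]
        exact (hgrid (m - 1) (by omega)).2.1
      · simp only [hmk]
        have : ((m - 1 : ℕ) : ℝ) + 1 = m := by
          rw [Nat.cast_sub (by omega)]; push_cast; ring
        rw [this, hmst]; linarith
    · set j := ⌊(a - α) / st⌋₊ with hj
      have hq : 0 ≤ (a - α) / st := div_nonneg (by linarith) hst0.le
      have hj1 : (j : ℝ) ≤ (a - α) / st := Nat.floor_le hq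
      have hj2 : (a - α) / st < j + 1 := Nat.lt_floor_add_one _
      rw [le_div_iff₀ hst0] at hj1
      rw [div_lt_iff₀ hst0] at hj2
      have hjm : j < m := by
        rw [hj, Nat.floor_lt hq, div_lt_iff₀ hst0, hmst]; linarith
      refine ⟨mk j, List.mem_map.2 ⟨j, List.mem_range.2 hjm, rfl⟩, ?_, ?_⟩
      · simp only [hmk]; linarith
      · simp only [hmk]; linarith
  · rintro g ⟨R, hR, hg⟩
    obtain ⟨j, hj, rfl⟩ := List.mem_map.1 hR
    have hj' := List.mem_range.1 hj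
    obtain ⟨g1, g2, g3⟩ := hgrid j hj'
    have hbj := hb1 _ g1 g2
    have h5 : η ≤ ρ / 4 := min_le_left _ _
    have h6 : r ≤ ρ / 2 := min_le_left _ _
    simp only [rect, hmk, mem_prod, mem_Icc] at hg ⊢
    rw [abs_le] at hbj
    refine ⟨⟨by linarith [hg.1.1], by linarith [hg.1.2]⟩, ⟨by linarith [hg.2.1, hbj.1],
      by linarith [hg.2.2, hbj.2]⟩⟩
  · rintro g ⟨R, hR, hg⟩ x hx0 hx1
    obtain ⟨j, hj, rfl⟩ := List.mem_map.1 hR
    have hj' := List.mem_range.1 hj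
    obtain ⟨g1, g2, g3⟩ := hgrid j hj'
    obtain ⟨f, hf, hfx⟩ := hb2 _ g1 g2 x hx0 hx1
    refine ⟨_, List.mem_map_of_mem hf, ?_⟩
    simp only [rect, hmk, mem_prod, mem_Icc] at hg ⊢
    have h7 : |(g.1 - (α + j * st)) * x| ≤ r / 2 := by
      rw [abs_mul, abs_of_nonneg hx0]
      have : |g.1 - (α + j * st)| ≤ r / 2 := by
        rw [abs_le]; constructor <;> nlinarith [hg.1.1, hg.1.2]
      nlinarith [abs_nonneg (g.1 - (α + j * st))]
    have h8 : |g.2 - b (α + j * st)| ≤ r / 2 := by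
      rw [abs_le]; constructor <;> linarith [hg.2.1, hg.2.2]
    calc |(g.1 - f.1) * x + (g.2 - f.2.1)| = |((α + j * st - f.1) * x + (b (α + j * st) - f.2.1)) +
          (g.1 - (α + j * st)) * x + (g.2 - b (α + j * st))| := by
          congr 1; ring
      _ ≤ |(α + j * st - f.1) * x + (b (α + j * st) - f.2.1)| + |(g.1 - (α + j * st)) * x| +
          |g.2 - b (α + j * st)| := by
          refine (abs_add_le _ _).trans ?_
          gcongr
          exact abs_add_le _ _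
      _ ≤ f.2.2 + r := by linarith

theorem reg_append (L L' : List (ℝ × ℝ × ℝ × ℝ)) : reg (L ++ L') = reg L ∪ reg L' := by
  ext g
  simp only [reg, List.mem_append, mem_ofPred_eq, mem_union]
  constructor
  · rintro ⟨R, h | h, hg⟩
    · exact Or.inl ⟨R, h, hg⟩
    · exact Or.inr ⟨R, h, hg⟩
  · rintro (⟨R, h, hg⟩ | ⟨R, h, hg⟩)
    · exact ⟨R, Or.inl h, hg⟩
    · exact ⟨R, Or.inr h, hg⟩

theorem refine_list (L : List (ℝ × ℝ × ℝ × ℝ)) : Pos L → ∀ ε : ℝ, 0 < ε →
    ∃ (L' : List (ℝ × ℝ × ℝ × ℝ)) (F : List (ℝ × ℝ × ℝ)), Pos L' ∧ (∀ f ∈ F, 0 < f.2.2) ∧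
      tot F ≤ ε ∧
      (∀ a, (∃ R ∈ L, R.1 ≤ a ∧ a ≤ R.2.1) → ∃ R' ∈ L', R'.1 ≤ a ∧ a ≤ R'.2.1) ∧
      reg L' ⊆ reg L ∧
      ∀ g ∈ reg L', ∀ x, 0 ≤ x → x ≤ 1 → blk F g.1 g.2 x := by
  induction L with
  | nil =>
    intro _ ε hε
    refine ⟨[], [], by simp [Pos], by simp, by simpa [tot] using hε.le, by simp, by simp [reg], ?_⟩
    rintro g ⟨R, hR, _⟩
    simp at hR
  | cons R L ih =>
    intro hP ε hε
    obtain ⟨L1, F1, a1, a2, a3, a4, a5, a6⟩ := refine_one R (hP R List.mem_cons_self).1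
      (hP R List.mem_cons_self).2 (ε / 2) (by linarith)
    obtain ⟨L2, F2, b1, b2, b3, b4, b5, b6⟩ := ih (fun R' hR' => hP R' (List.mem_cons_of_mem _ hR'))
      (ε / 2) (by linarith)
    refine ⟨L1 ++ L2, F1 ++ F2, ?_, ?_, ?_, ?_, ?_, ?_⟩
    · intro R' hR'
      rcases List.mem_append.1 hR' with h | h
      · exact a1 R' h
      · exact b1 R' h
    · intro f hf
      rcases List.mem_append.1 hf with h | h
      · exact a2 f h
      · exact b2 f h
    · rw [tot_append]; linarith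
    · rintro a ⟨R', hR', h1, h2⟩
      rcases List.mem_cons.1 hR' with h | h
      · subst h
        obtain ⟨R'', h3, h4⟩ := a4 a h1 h2
        exact ⟨R'', List.mem_append_left _ h3, h4⟩
      · obtain ⟨R'', h3, h4⟩ := b4 a ⟨R', h, h1, h2⟩
        exact ⟨R'', List.mem_append_right _ h3, h4⟩
    · rw [reg_append]
      apply union_subset
      · exact a5.trans (fun g hg => ⟨R, List.mem_cons_self, hg⟩)
      · exact b5.trans (fun g ⟨R', h1, h2⟩ => ⟨R', List.mem_cons_of_mem _ h1, h2⟩)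
    · intro g hg x hx0 hx1
      rw [reg_append] at hg
      rcases hg with hg | hg
      · exact blk_append_left _ (a6 g hg x hx0 hx1)
      · exact blk_append_right _ (b6 g hg x hx0 hx1)

/-- a compact set of lines with all slopes in `[-1,1]`, covered by strips of small total width -/
theorem compact_lines : ∃ G : Set (ℝ × ℝ), IsCompact G ∧
    (∀ a, -1 ≤ a → a ≤ 1 → ∃ b, (a, b) ∈ G) ∧
    ∀ ε : ℝ, 0 < ε → ∃ F : List (ℝ × ℝ × ℝ), (∀ f ∈ F, 0 < f.2.2) ∧ tot F ≤ ε ∧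
      ∀ g ∈ G, ∀ x, 0 ≤ x → x ≤ 1 → blk F g.1 g.2 x := by
  set X := {L : List (ℝ × ℝ × ℝ × ℝ) // Pos L} with hX
  have step : ∀ (n : ℕ) (L : X), ∃ (L' : X) (F : List (ℝ × ℝ × ℝ)), (∀ f ∈ F, 0 < f.2.2) ∧
      tot F ≤ 1 / ((n : ℝ) + 1) ∧
      (∀ a, (∃ R ∈ L.1, R.1 ≤ a ∧ a ≤ R.2.1) → ∃ R' ∈ L'.1, R'.1 ≤ a ∧ a ≤ R'.2.1) ∧
      reg L'.1 ⊆ reg L.1 ∧
      ∀ g ∈ reg L'.1, ∀ x, 0 ≤ x → x ≤ 1 → blk F g.1 g.2 x := by
    intro n L
    obtain ⟨L', F, h1, h2, h3, h4, h5, h6⟩ := refine_list L.1 L.2 (1 / ((n : ℝ) + 1)) (by positivity)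
    exact ⟨⟨L', h1⟩, F, h2, h3, h4, h5, h6⟩
  choose nx Fx h2 h3 h4 h5 h6 using step
  set L0 : X := ⟨[(-1, 1, 0, 1)], by
    intro R hR
    rw [List.mem_singleton] at hR
    subst hR
    norm_num⟩ with hL0
  set sq : ℕ → X := fun n => Nat.rec L0 (fun n L => nx n L) n with hsq
  have hsucc : ∀ n, sq (n + 1) = nx n (sq n) := fun n => rfl
  have hslope : ∀ n a, -1 ≤ a → a ≤ 1 → ∃ R ∈ (sq n).1, R.1 ≤ a ∧ a ≤ R.2.1 := by
    intro n
    induction n with
    | zero =>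
      intro a ha1 ha2
      exact ⟨(-1, 1, 0, 1), List.mem_singleton.2 rfl, ha1, ha2⟩
    | succ n ih =>
      intro a ha1 ha2
      rw [hsucc]
      exact h4 n (sq n) a (ih a ha1 ha2)
  have hnest : ∀ n, reg (sq (n + 1)).1 ⊆ reg (sq n).1 := fun n => by rw [hsucc]; exact h5 n (sq n)
  refine ⟨⋂ n, reg (sq n).1, ?_, ?_, ?_⟩
  · exact (reg_compact (sq 0).1).of_isClosed_subset
      (isClosed_iInter fun n => (reg_compact _).isClosed) (iInter_subset _ 0)
  · intro a ha1 ha2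
    have hK : (⋂ n, {b : ℝ | (a, b) ∈ reg (sq n).1}).Nonempty := by
      apply IsCompact.nonempty_iInter_of_sequence_nonempty_isCompact_isClosed
      · intro n b hb; exact hnest n hb
      · intro n
        obtain ⟨R, hR, h7, h8⟩ := hslope n a ha1 ha2
        refine ⟨R.2.2.1, R, hR, ?_⟩
        have := ((sq n).2 R hR).2
        simp only [rect, mem_prod, mem_Icc]
        exact ⟨⟨h7, h8⟩, by linarith, by linarith⟩
      · have hc := reg_compact (sq 0).1
        have himg := hc.image continuous_snd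
        refine himg.of_isClosed_subset ?_ ?_
        · exact hc.isClosed.preimage (by fun_prop : Continuous fun b : ℝ => (a, b))
        · intro b hb; exact ⟨(a, b), hb, rfl⟩
      · intro n
        exact (reg_compact _).isClosed.preimage (by fun_prop : Continuous fun b : ℝ => (a, b))
    obtain ⟨b, hb⟩ := hK
    refine ⟨b, mem_iInter.2 (fun n => ?_)⟩
    exact mem_iInter.1 hb n
  · intro ε hε
    obtain ⟨n, hn⟩ := exists_nat_one_div_lt hε
    refine ⟨Fx n (sq n), h2 n (sq n), (h3 n (sq n)).trans hn.le, ?_⟩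
    intro g hg x hx0 hx1
    have := mem_iInter.1 hg (n + 1)
    rw [hsucc] at this
    exact h6 n (sq n) g this x hx0 hx1

end

end Pool.Agent.Run7.h542.BS
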