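import Mathlib
import Pool.Agent.Run7.h542.BS.Bound
import Pool.Agent.Run7.h542.BS.Compact

set_option autoImplicit false

namespace Pool.Agent.Run7.h542.BS

open MeasureTheory Set
open Pool.Agent.Results.MP_6b55e5_an.RogersQ2

noncomputable section

/-- the closure of the range of the jump function -/
def K : Set ℝ := closure (F '' Ico 0 1)

theorem K_compact : IsCompact K := by
  apply Metric.isCompact_of_isClosed_isBounded isClosed_closure
  apply Bornology.IsBounded.closure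
  refine (Metric.isBounded_Icc (0 : ℝ) 1).subset ?_
  rintro _ ⟨t, ht, rfl⟩
  exact F_mem ht.1 ht.2.le

/-- the null set of positive strip content -/
def NN : Set Plane := {v | v 0 ∈ Icc (-(1 / 4) : ℝ) (1 / 4) ∧ v 1 - v 0 ^ 2 ∈ K}

theorem coords_mp : MeasurePreserving (fun v : Plane => (v 0, v 1)) volume volume := by
  have h1 := PiLp.volume_preserving_ofLp (Fin 2)
  have h2 := volume_preserving_finTwoArrow ℝ
  exact h2.comp h1

theorem NN_compact : IsCompact NN := by
  have e : NN = (fun z : ℝ × ℝ => (!₂[z.1, z.1 ^ 2 + z.2] : Plane)) '' (Icc (-(1 / 4) : ℝ) (1 / 4) ×ˢ K) := by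
    ext v
    simp only [NN, mem_ofPred_eq, mem_image, mem_prod, Prod.exists]
    constructor
    · rintro ⟨h1, h2⟩
      refine ⟨v 0, v 1 - v 0 ^ 2, ⟨h1, h2⟩, ?_⟩
      ext i
      fin_cases i
      · rfl
      · simp
    · rintro ⟨x, y, ⟨h1, h2⟩, rfl⟩
      simp only [Fin.isValue, Matrix.cons_val_zero, Matrix.cons_val_one]
      refine ⟨h1, ?_⟩
      simpa using h2
  rw [e]
  apply (isCompact_Icc.prod K_compact).image
  fun_prop

theorem NN_null : volume NN = 0 := by
  set T : Set (ℝ × ℝ) := {z | z.1 ∈ Icc (-(1 / 4) : ℝ) (1 / 4) ∧ z.2 - z.1 ^ 2 ∈ K} with hT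
  have hTm : MeasurableSet T := by
    have h1 : MeasurableSet (Prod.fst ⁻¹' Icc (-(1 / 4) : ℝ) (1 / 4) : Set (ℝ × ℝ)) :=
      measurable_fst measurableSet_Icc
    have h2 : Measurable (fun z : ℝ × ℝ => z.2 - z.1 ^ 2) := by fun_prop
    exact h1.inter (h2 K_compact.isClosed.measurableSet)
  have hvol : volume T = 0 := by
    rw [Measure.volume_eq_prod, Measure.measure_prod_null hTm]
    filter_upwards with x
    have hsub : Prod.mk x ⁻¹' T ⊆ (fun y => y + (-(x ^ 2))) ⁻¹' K := by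
      intro y hy
      have := hy.2
      simpa [sub_eq_add_neg] using this
    refine le_antisymm ((measure_mono hsub).trans ?_) zero_le
    rw [measure_preimage_add_right]
    exact range_null.le
  have hpre : NN = (fun v : Plane => (v 0, v 1)) ⁻¹' T := rfl
  rw [hpre, coords_mp.measure_preimage hTm.nullMeasurableSet]
  exact hvol

theorem NN_strips {ι : Type*} [Countable ι] (S : ι → Set Plane) (w : ι → ℝ)
    (hS : ∀ i, IsStrip (S i) (w i)) (hcov : NN ⊆ ⋃ i, S i) (hw : Summable w) :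
    1 / 120 ≤ ∑' i, w i := by
  choose hw0 u c hu hSe using hS
  have hcov2 : (Ico (0 : ℝ) 1 ×ˢ Icc (-(1 / 4) : ℝ) (1 / 4)) ⊆ ⋃ i, P (u i 0) (u i 1) (c i) (w i) := by
    rintro ⟨s, x⟩ ⟨hs, hx⟩
    have hv : (!₂[x, x ^ 2 + F s] : Plane) ∈ NN := by
      refine ⟨by simpa using hx, ?_⟩
      simp only [Fin.isValue, PiLp.toLp_apply, Matrix.cons_val_zero, Matrix.cons_val_one,
        add_sub_cancel_left]
      exact subset_closure ⟨s, hs, rfl⟩
    obtain ⟨i, hi⟩ := mem_iUnion.1 (hcov hv)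
    rw [hSe i] at hi
    refine mem_iUnion.2 ⟨i, hs, hx, ?_⟩
    have hin : inner ℝ (u i) (!₂[x, x ^ 2 + F s] : Plane) = u i 0 * x + u i 1 * (x ^ 2 + F s) := by
      simp [PiLp.inner_apply, Fin.sum_univ_two]
      ring
    simp only [mem_ofPred_eq, hin] at hi
    exact hi
  have hvol : volume (Ico (0 : ℝ) 1 ×ˢ Icc (-(1 / 4) : ℝ) (1 / 4)) = ENNReal.ofReal (1 / 2) := by
    rw [Measure.volume_eq_prod, Measure.prod_prod, Real.volume_Ico, Real.volume_Icc,
      ← ENNReal.ofReal_mul (by norm_num)]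
    congr 1; norm_num
  have h1 : ENNReal.ofReal (1 / 2) ≤ ENNReal.ofReal (60 * ∑' i, w i) := by
    calc ENNReal.ofReal (1 / 2) = volume (Ico (0 : ℝ) 1 ×ˢ Icc (-(1 / 4) : ℝ) (1 / 4)) := hvol.symm
      _ ≤ ∑' i, volume (P (u i 0) (u i 1) (c i) (w i)) :=
          (measure_mono hcov2).trans (measure_iUnion_le _)
      _ ≤ ∑' i, ENNReal.ofReal (60 * w i) := by
          refine ENNReal.tsum_le_tsum (fun i => P_bound (hw0 i).le ?_)
          have := hu i
          rw [EuclideanSpace.norm_eq, Real.sqrt_eq_one, Fin.sum_univ_two] at this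
          simpa [Real.norm_eq_abs, sq_abs] using this
      _ = ENNReal.ofReal (∑' i, 60 * w i) :=
          (ENNReal.ofReal_tsum_of_nonneg (fun i => by have := (hw0 i).le; positivity)
            (hw.mul_left _)).symm
      _ = ENNReal.ofReal (60 * ∑' i, w i) := by rw [tsum_mul_left]
  have h2 : 0 ≤ ∑' i, w i := tsum_nonneg (fun i => (hw0 i).le)
  rw [ENNReal.ofReal_le_ofReal_iff (by positivity)] at h1
  linarith

theorem area_list (F : List (ℝ × ℝ × ℝ)) : (∀ f ∈ F, 0 < f.2.2) →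
    volume {v : Plane | 0 ≤ v 0 ∧ v 0 ≤ 1 ∧ ∃ f ∈ F, |v 1 - f.1 * v 0 - f.2.1| ≤ f.2.2} ≤
      ENNReal.ofReal (2 * tot F) := by
  induction F with
  | nil => intro _; simp [tot]
  | cons f F ih =>
    intro hF
    have h1 := ih (fun g hg => hF g (List.mem_cons_of_mem _ hg))
    have hsub : {v : Plane | 0 ≤ v 0 ∧ v 0 ≤ 1 ∧ ∃ g ∈ f :: F, |v 1 - g.1 * v 0 - g.2.1| ≤ g.2.2} ⊆
        {v : Plane | 0 ≤ v 0 ∧ v 0 ≤ 1 ∧ |v 1 - f.1 * v 0 - f.2.1| ≤ f.2.2} ∪
        {v : Plane | 0 ≤ v 0 ∧ v 0 ≤ 1 ∧ ∃ f ∈ F, |v 1 - f.1 * v 0 - f.2.1| ≤ f.2.2} := by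
      rintro v ⟨h0, h1, g, hg, h2⟩
      rcases List.mem_cons.1 hg with h | h
      · subst h; exact Or.inl ⟨h0, h1, h2⟩
      · exact Or.inr ⟨h0, h1, g, h, h2⟩
    refine (measure_mono hsub).trans ((measure_union_le _ _).trans ?_)
    refine (add_le_add (volume_piece f.1 f.2.1 f.2.2) h1).trans ?_
    have hf := hF f List.mem_cons_self
    have ht : 0 ≤ tot F := List.sum_nonneg (by
      intro x hx
      obtain ⟨g, hg, rfl⟩ := List.mem_map.1 hx
      exact (hF g (List.mem_cons_of_mem _ hg)).le)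
    rw [← ENNReal.ofReal_add (by positivity) (by positivity), tot_cons]
    apply ENNReal.ofReal_le_ofReal
    linarith

/-- the union of the segments over `[0,1]` of a set of lines -/
def seg (G : Set (ℝ × ℝ)) : Set Plane :=
  (fun p : (ℝ × ℝ) × ℝ => (!₂[p.2, p.1.1 * p.2 + p.1.2] : Plane)) '' (G ×ˢ Icc (0 : ℝ) 1)

theorem seg_compact {G : Set (ℝ × ℝ)} (hG : IsCompact G) : IsCompact (seg G) := by
  apply (hG.prod isCompact_Icc).image
  fun_prop

theorem seg_null {G : Set (ℝ × ℝ)} (h : ∀ ε : ℝ, 0 < ε → ∃ F : List (ℝ × ℝ × ℝ),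
    (∀ f ∈ F, 0 < f.2.2) ∧ tot F ≤ ε ∧ ∀ g ∈ G, ∀ x, 0 ≤ x → x ≤ 1 → blk F g.1 g.2 x) :
    volume (seg G) = 0 := by
  refine le_antisymm (le_of_forall_pos_le_add ?_) zero_le
  intro ε hε
  rw [zero_add]
  rcases eq_or_ne ε ⊤ with rfl | htop
  · exact le_top
  have hε' : 0 < ε.toReal := ENNReal.toReal_pos hε.ne' htop
  obtain ⟨F, h1, h2, h3⟩ := h (ε.toReal / 2) (by linarith)
  have hsub : seg G ⊆ {v : Plane | 0 ≤ v 0 ∧ v 0 ≤ 1 ∧ ∃ f ∈ F, |v 1 - f.1 * v 0 - f.2.1| ≤ f.2.2} := by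
    rintro _ ⟨⟨g, x⟩, ⟨hg, hx⟩, rfl⟩
    obtain ⟨f, hf, hfx⟩ := h3 g hg x hx.1 hx.2
    simp only [Fin.isValue, PiLp.toLp_apply, Matrix.cons_val_zero, Matrix.cons_val_one, mem_ofPred_eq]
    refine ⟨hx.1, hx.2, f, hf, ?_⟩
    have e : g.1 * x + g.2 - f.1 * x - f.2.1 = (g.1 - f.1) * x + (g.2 - f.2.1) := by ring
    rw [e]; exact hfx
  refine (measure_mono hsub).trans ((area_list F h1).trans ?_)
  rw [← ENNReal.ofReal_toReal htop]
  apply ENNReal.ofReal_le_ofReal
  linarith

theorem sw_continuous : Continuous sw := by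
  unfold sw
  fun_prop

/-- a compact Besicovitch set -/
theorem compact_besicovitch : ∃ E : Set Plane, IsCompact E ∧ IsBesicovitch E := by
  obtain ⟨G, hG, hs, hc⟩ := compact_lines
  have hc1 : IsCompact (seg G ∪ sw '' seg G) :=
    (seg_compact hG).union ((seg_compact hG).image sw_continuous)
  refine ⟨seg G ∪ sw '' seg G, hc1, hc1.isBounded, ?_, ?_⟩
  · apply measure_union_null (seg_null hc)
    have hm : MeasurableSet (seg G) := (seg_compact hG).isClosed.measurableSet
    have e : sw '' seg G = sw ⁻¹' seg G := by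
      have hinv : ∀ v, sw (sw v) = v := by
        intro v
        ext i
        fin_cases i
        · simp [sw]
        · simp [sw]
      ext v
      constructor
      · rintro ⟨w, hw, rfl⟩
        rw [mem_preimage, hinv]; exact hw
      · intro hv
        exact ⟨sw v, hv, hinv v⟩
    rw [e, measurePreserving_sw.measure_preimage hm.nullMeasurableSet]
    exact seg_null hc
  · intro e he
    rw [EuclideanSpace.norm_eq, Real.sqrt_eq_one, Fin.sum_univ_two] at he
    simp only [Real.norm_eq_abs, sq_abs] at he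
    have main : ∀ s t : ℝ, s ^ 2 + t ^ 2 = 1 → |t| ≤ |s| → ∃ a b m : ℝ, (a, b) ∈ G ∧
        ∀ θ : ℝ, 0 ≤ θ → θ ≤ 1 → 0 ≤ m + θ * s ∧ m + θ * s ≤ 1 ∧
          (a * m + b) + θ * t = a * (m + θ * s) + b := by
      intro s t hst hts
      have hs0 : s ≠ 0 := by
        rintro rfl
        simp at hts
        subst hts
        norm_num at hst
      have hs1 : |s| ≤ 1 := by
        rw [abs_le]; constructor <;> nlinarith [sq_nonneg t]
      have ha : |t / s| ≤ 1 := by
        rw [abs_div, div_le_one (abs_pos.2 hs0)]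
        exact hts
      rw [abs_le] at ha hs1
      obtain ⟨b, hb⟩ := hs (t / s) ha.1 ha.2
      refine ⟨t / s, b, max 0 (-s), hb, fun θ h0 h1 => ⟨?_, ?_, ?_⟩⟩
      · rcases le_total 0 s with h | h
        · have := le_max_left 0 (-s)
          nlinarith
        · have := le_max_right 0 (-s)
          nlinarith
      · rcases le_total 0 s with h | h
        · rw [max_eq_left (by linarith)]
          nlinarith
        · rw [max_eq_right (by linarith)]
          nlinarith
      · field_simp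
        ring
    rcases le_total |e 1| |e 0| with hc | hc
    · obtain ⟨a, b, m, hab, h⟩ := main (e 0) (e 1) he hc
      refine ⟨!₂[m, a * m + b], ?_⟩
      rw [segment_eq_image']
      rintro v ⟨θ, ⟨h0, h1⟩, rfl⟩
      obtain ⟨g1, g2, g3⟩ := h θ h0 h1
      refine Or.inl ⟨⟨(a, b), m + θ * e 0⟩, ⟨hab, g1, g2⟩, ?_⟩
      ext i
      fin_cases i
      · simp
      · simp only [Fin.mk_one, Fin.isValue, PiLp.toLp_apply, Matrix.cons_val_one,
          Matrix.cons_val_fin_one, add_sub_cancel_left, PiLp.add_apply, PiLp.smul_apply, smul_eq_mul]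
        exact g3.symm
    · obtain ⟨a, b, m, hab, h⟩ := main (e 1) (e 0) (by linarith) hc
      refine ⟨!₂[a * m + b, m], ?_⟩
      rw [segment_eq_image']
      rintro v ⟨θ, ⟨h0, h1⟩, rfl⟩
      obtain ⟨g1, g2, g3⟩ := h θ h0 h1
      refine Or.inr ⟨_, ⟨⟨(a, b), m + θ * e 1⟩, ⟨hab, g1, g2⟩, rfl⟩, ?_⟩
      ext i
      fin_cases i
      · simp only [sw, Fin.zero_eta, Fin.isValue, PiLp.toLp_apply, Matrix.cons_val_zero,
          Matrix.cons_val_one, Matrix.cons_val_fin_one, add_sub_cancel_left, PiLp.add_apply,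
          PiLp.smul_apply, smul_eq_mul]
        exact g3.symm
      · simp [sw]

end

end Pool.Agent.Run7.h542.BS
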