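import Mathlib
import Pool.Agent.Run7.h542.BS.Sets
import Pool.Agent.Run7.h542.BS.Davies

set_option autoImplicit false

namespace Pool.Agent.Run7.h542.BS

open MeasureTheory Set
open Pool.Agent.Results.MP_6b55e5_an.RogersQ2

noncomputable section

/-- `NN` in coordinates -/
def TT : Set (ℝ × ℝ) := {z | z.1 ∈ Icc (-(1 / 4) : ℝ) (1 / 4) ∧ z.2 - z.1 ^ 2 ∈ K}

theorem TT_compact : IsCompact TT := by
  have e : TT = (fun z : ℝ × ℝ => (z.1, z.1 ^ 2 + z.2)) '' (Icc (-(1 / 4) : ℝ) (1 / 4) ×ˢ K) := by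
    ext v
    simp only [TT, mem_ofPred_eq, mem_image, mem_prod, Prod.exists]
    constructor
    · rintro ⟨h1, h2⟩
      exact ⟨v.1, v.2 - v.1 ^ 2, ⟨h1, h2⟩, by ext <;> simp⟩
    · rintro ⟨x, y, ⟨h1, h2⟩, rfl⟩
      refine ⟨h1, ?_⟩
      simpa using h2
  rw [e]
  apply (isCompact_Icc.prod K_compact).image
  fun_prop

theorem TT_null : volume TT = 0 := by
  have hTm : MeasurableSet TT := TT_compact.isClosed.measurableSet
  rw [Measure.volume_eq_prod, Measure.measure_prod_null hTm]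
  filter_upwards with x
  have hsub : Prod.mk x ⁻¹' TT ⊆ (fun y => y + (-(x ^ 2))) ⁻¹' K := by
    intro y hy
    have := hy.2
    simpa [sub_eq_add_neg] using this
  refine le_antisymm ((measure_mono hsub).trans ?_) zero_le
  rw [measure_preimage_add_right]
  exact range_null.le

/-- the area of the union of a list of blocks -/
theorem area_blocks (F : List Blk) : Bl F →
    volume {v : ℝ × ℝ | cov F v.1 v.2} ≤ ENNReal.ofReal (2 * ar F) := by
  induction F with
  | nil => intro _; simp [cov]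
  | cons f F ih =>
    intro hF
    have hF' : Bl F := fun g hg => hF g (List.mem_cons_of_mem _ hg)
    have h1 := ih hF'
    obtain ⟨hf1, hf2⟩ := hF f List.mem_cons_self
    set T : Set (ℝ × ℝ) := {v | f.s ≤ v.1 ∧ v.1 ≤ f.t ∧ |v.2 - f.p * v.1 - f.q| ≤ f.w} with hT
    have hsub : {v : ℝ × ℝ | cov (f :: F) v.1 v.2} ⊆ T ∪ {v : ℝ × ℝ | cov F v.1 v.2} := by
      rintro v ⟨g, hg, h2⟩
      rcases List.mem_cons.1 hg with h | h
      · subst h; exact Or.inl h2
      · exact Or.inr ⟨g, h, h2⟩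
    have hTm : MeasurableSet T := by
      apply IsClosed.measurableSet
      simp only [hT, Set.ofPred_and]
      refine (isClosed_le continuous_const continuous_fst).inter
        ((isClosed_le continuous_fst continuous_const).inter
          (isClosed_le (by fun_prop) continuous_const))
    have hvol : volume T ≤ ENNReal.ofReal (2 * (f.w * (f.t - f.s))) := by
      rw [Measure.volume_eq_prod, Measure.prod_apply hTm]
      calc ∫⁻ x, volume (Prod.mk x ⁻¹' T) ≤
          ∫⁻ x, (Set.Icc f.s f.t).indicator (fun _ => ENNReal.ofReal (2 * f.w)) x := by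
            refine lintegral_mono (fun x => ?_)
            by_cases hx : x ∈ Set.Icc f.s f.t
            · rw [Set.indicator_of_mem hx]
              have hsub : Prod.mk x ⁻¹' T ⊆ Set.Icc (f.p * x + f.q - f.w) (f.p * x + f.q + f.w) := by
                intro y hy
                have h1 : |y - f.p * x - f.q| ≤ f.w := hy.2.2
                rw [abs_le] at h1
                constructor <;> linarith [h1.1, h1.2]
              refine (measure_mono hsub).trans ?_
              rw [Real.volume_Icc]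
              apply ENNReal.ofReal_le_ofReal
              linarith
            · rw [Set.indicator_of_notMem hx]
              have : Prod.mk x ⁻¹' T = ∅ := by
                ext y
                simp only [Set.mem_preimage, Set.mem_empty_iff_false, iff_false]
                intro hy
                exact hx ⟨hy.1, hy.2.1⟩
              rw [this]
              simp
        _ = ENNReal.ofReal (2 * (f.w * (f.t - f.s))) := by
            rw [lintegral_indicator measurableSet_Icc, setLIntegral_const, Real.volume_Icc,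
              ← ENNReal.ofReal_mul (by positivity)]
            congr 1; ring
    refine (measure_mono hsub).trans ((measure_union_le _ _).trans ?_)
    refine (add_le_add hvol h1).trans ?_
    have h3 := ar_nonneg hF'
    have h4 : 0 ≤ f.w * (f.t - f.s) := mul_nonneg hf1 (by linarith)
    rw [← ENNReal.ofReal_add (by positivity) (by positivity), ar_cons]
    apply ENNReal.ofReal_le_ofReal
    linarith

/-- the union of the segments `{P + t (1, a) : 0 ≤ t ≤ 1}`, `(P, a) ∈ H` -/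
def spray (H : Set ((ℝ × ℝ) × ℝ)) : Set Plane :=
  (fun p : ((ℝ × ℝ) × ℝ) × ℝ => (!₂[p.1.1.1 + p.2, p.1.1.2 + p.1.2 * p.2] : Plane)) ''
    (H ×ˢ Icc (0 : ℝ) 1)

theorem spray_compact {H : Set ((ℝ × ℝ) × ℝ)} (hH : IsCompact H) : IsCompact (spray H) := by
  apply (hH.prod isCompact_Icc).image
  fun_prop

theorem spray_null {H : Set ((ℝ × ℝ) × ℝ)}
    (h : ∀ ε : ℝ, 0 < ε → ∃ F : List Blk, Bl F ∧ ar F ≤ ε ∧ ∀ z ∈ H, ∀ x, z.1.1 ≤ x →
      x ≤ z.1.1 + 1 → cov F x (z.1.2 + z.2 * (x - z.1.1))) : volume (spray H) = 0 := by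
  refine le_antisymm (le_of_forall_pos_le_add ?_) zero_le
  intro ε hε
  rw [zero_add]
  rcases eq_or_ne ε ⊤ with rfl | htop
  · exact le_top
  have hε' : 0 < ε.toReal := ENNReal.toReal_pos hε.ne' htop
  obtain ⟨F, h1, h2, h3⟩ := h (ε.toReal / 2) (by linarith)
  set T : Set (ℝ × ℝ) := {v | cov F v.1 v.2} with hT
  have hTm : MeasurableSet T := by
    have : T = ⋃ f ∈ F, {v : ℝ × ℝ | f.s ≤ v.1 ∧ v.1 ≤ f.t ∧ |v.2 - f.p * v.1 - f.q| ≤ f.w} := by
      ext v; simp only [hT, cov, mem_ofPred_eq, mem_iUnion, exists_prop]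
    rw [this]
    have hfin : {f : Blk | f ∈ F}.Finite := List.finite_toSet F
    apply Set.Finite.measurableSet_biUnion hfin
    intro f _
    apply IsClosed.measurableSet
    simp only [Set.ofPred_and]
    refine (isClosed_le continuous_const continuous_fst).inter
      ((isClosed_le continuous_fst continuous_const).inter
        (isClosed_le (by fun_prop) continuous_const))
  have hsub : spray H ⊆ (fun v : Plane => (v 0, v 1)) ⁻¹' T := by
    rintro _ ⟨⟨z, t⟩, ⟨hz, ht⟩, rfl⟩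
    have h4 := h3 z hz (z.1.1 + t) (by linarith [ht.1]) (by linarith [ht.2])
    simp only [hT, mem_preimage, mem_ofPred_eq]
    have e : z.1.2 + z.2 * (z.1.1 + t - z.1.1) = z.1.2 + z.2 * t := by ring
    rw [e] at h4
    simpa using h4
  refine (measure_mono hsub).trans ?_
  rw [coords_mp.measure_preimage hTm.nullMeasurableSet]
  refine (area_blocks F h1).trans ?_
  rw [← ENNReal.ofReal_toReal htop]
  apply ENNReal.ofReal_le_ofReal
  linarith

/-- every point of a segment of length at least one lies in a unit subsegment -/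
theorem unit_sub {A d v : Plane} (hd : 1 ≤ ‖d‖) (hv : v ∈ segment ℝ A (A + d)) :
    ∃ x e : Plane, ‖e‖ = 1 ∧ v ∈ segment ℝ x (x + e) ∧ segment ℝ x (x + e) ⊆ segment ℝ A (A + d) := by
  have hd0 : 0 < ‖d‖ := by linarith
  rw [segment_eq_image'] at hv
  obtain ⟨τ, ⟨t0, t1⟩, rfl⟩ := hv
  simp only [add_sub_cancel_left]
  obtain ⟨e, hen, hde⟩ : ∃ e : Plane, ‖e‖ = 1 ∧ d = ‖d‖ • e := by
    refine ⟨‖d‖⁻¹ • d, ?_, ?_⟩
    · rw [norm_smul, norm_inv, norm_norm, inv_mul_cancel₀ hd0.ne']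
    · rw [smul_smul, mul_inv_cancel₀ hd0.ne', one_smul]
  obtain ⟨l, hl⟩ : ∃ l, l = ‖d‖ := ⟨_, rfl⟩
  rw [← hl] at hde hd hd0
  clear hl
  subst hde
  set s := min (τ * l) (l - 1) with hs
  have hs0 : 0 ≤ s := le_min (by positivity) (by linarith)
  have hs1 : s ≤ τ * l := min_le_left _ _
  have hs2 : s ≤ l - 1 := min_le_right _ _
  have hs3 : τ * l ≤ s + 1 := by
    rcases min_choice (τ * l) (l - 1) with h | h
    · rw [hs, h]; linarith
    · rw [hs, h]; nlinarith
  clear_value s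
  refine ⟨A + s • e, e, hen, ?_, ?_⟩
  · rw [segment_eq_image']
    refine ⟨τ * l - s, ⟨by linarith, by linarith⟩, ?_⟩
    simp only [add_sub_cancel_left]
    rw [smul_smul, sub_smul]
    abel
  · rw [segment_eq_image', segment_eq_image']
    rintro _ ⟨θ, ⟨h0, h1⟩, rfl⟩
    refine ⟨(s + θ) / l, ⟨by positivity, ?_⟩, ?_⟩
    · rw [div_le_one hd0]; linarith
    · simp only [add_sub_cancel_left]
      rw [smul_smul, div_mul_cancel₀ _ hd0.ne', add_smul]
      abel

theorem norm_ge_one_of_fst (a : ℝ) : 1 ≤ ‖(!₂[1, a] : Plane)‖ := by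
  rw [EuclideanSpace.norm_eq, Fin.sum_univ_two]
  apply Real.one_le_sqrt.2
  simp
  positivity

theorem norm_ge_one_of_snd (a : ℝ) : 1 ≤ ‖(!₂[a, 1] : Plane)‖ := by
  rw [EuclideanSpace.norm_eq, Fin.sum_univ_two]
  apply Real.one_le_sqrt.2
  simp
  positivity

theorem spray_segments (H : Set ((ℝ × ℝ) × ℝ)) : ∀ v ∈ spray H, ∃ x e : Plane, ‖e‖ = 1 ∧
    v ∈ segment ℝ x (x + e) ∧ segment ℝ x (x + e) ⊆ spray H := by
  rintro _ ⟨⟨z, t⟩, ⟨hz, ht⟩, rfl⟩
  have hsub : segment ℝ (!₂[z.1.1, z.1.2] : Plane) (!₂[z.1.1, z.1.2] + !₂[1, z.2]) ⊆ spray H := by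
    rw [segment_eq_image']
    rintro _ ⟨θ, hθ, rfl⟩
    refine ⟨⟨z, θ⟩, ⟨hz, hθ⟩, ?_⟩
    ext i
    fin_cases i
    · simp
    · simp; ring
  obtain ⟨x, e, h1, h2, h3⟩ := unit_sub (A := !₂[z.1.1, z.1.2]) (v := !₂[z.1.1 + t, z.1.2 + z.2 * t])
    (norm_ge_one_of_fst z.2) (by
      rw [segment_eq_image']
      refine ⟨t, ht, ?_⟩
      ext i
      fin_cases i
      · simp
      · simp; ring)
  exact ⟨x, e, h1, h2, h3.trans hsub⟩

theorem seg_segments (G : Set (ℝ × ℝ)) : ∀ v ∈ seg G, ∃ x e : Plane, ‖e‖ = 1 ∧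
    v ∈ segment ℝ x (x + e) ∧ segment ℝ x (x + e) ⊆ seg G := by
  rintro _ ⟨⟨g, t⟩, ⟨hg, ht⟩, rfl⟩
  have hsub : segment ℝ (!₂[0, g.2] : Plane) (!₂[0, g.2] + !₂[1, g.1]) ⊆ seg G := by
    rw [segment_eq_image']
    rintro _ ⟨θ, hθ, rfl⟩
    refine ⟨⟨g, θ⟩, ⟨hg, hθ⟩, ?_⟩
    ext i
    fin_cases i
    · simp
    · simp; ring
  obtain ⟨x, e, h1, h2, h3⟩ := unit_sub (A := !₂[0, g.2]) (v := !₂[t, g.1 * t + g.2])
    (norm_ge_one_of_fst g.1) (by
      rw [segment_eq_image']
      refine ⟨t, ht, ?_⟩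
      ext i
      fin_cases i
      · simp
      · simp; ring)
  exact ⟨x, e, h1, h2, h3.trans hsub⟩

theorem sw_seg_segments (G : Set (ℝ × ℝ)) : ∀ v ∈ sw '' seg G, ∃ x e : Plane, ‖e‖ = 1 ∧
    v ∈ segment ℝ x (x + e) ∧ segment ℝ x (x + e) ⊆ sw '' seg G := by
  rintro _ ⟨_, ⟨⟨g, t⟩, ⟨hg, ht⟩, rfl⟩, rfl⟩
  have hsub : segment ℝ (!₂[g.2, 0] : Plane) (!₂[g.2, 0] + !₂[g.1, 1]) ⊆ sw '' seg G := by
    rw [segment_eq_image']
    rintro _ ⟨θ, hθ, rfl⟩
    refine ⟨_, ⟨⟨g, θ⟩, ⟨hg, hθ⟩, rfl⟩, ?_⟩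
    ext i
    fin_cases i
    · simp [sw]; ring
    · simp [sw]
  obtain ⟨x, e, h1, h2, h3⟩ := unit_sub (A := !₂[g.2, 0])
    (v := sw !₂[t, g.1 * t + g.2]) (norm_ge_one_of_snd g.1) (by
      rw [segment_eq_image']
      refine ⟨t, ht, ?_⟩
      ext i
      fin_cases i
      · simp [sw]; ring
      · simp [sw])
  exact ⟨x, e, h1, h2, h3.trans hsub⟩

/-- a compact Besicovitch set which is a union of unit segments -/
theorem compact_besicovitch' : ∃ E : Set Plane, IsCompact E ∧ IsBesicovitch E ∧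
    ∀ v ∈ E, ∃ x e : Plane, ‖e‖ = 1 ∧ v ∈ segment ℝ x (x + e) ∧ segment ℝ x (x + e) ⊆ E := by
  obtain ⟨G, hG, hs, hc⟩ := compact_lines
  have hc1 : IsCompact (seg G ∪ sw '' seg G) :=
    (seg_compact hG).union ((seg_compact hG).image sw_continuous)
  refine ⟨seg G ∪ sw '' seg G, hc1, ⟨hc1.isBounded, ?_, ?_⟩, ?_⟩
  · apply measure_union_null (seg_null hc)
    have hm : MeasurableSet (seg G) := (seg_compact hG).isClosed.measurableSet
    have e : sw '' seg G = sw ⁻¹' seg G := by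
      have hinv : ∀ v, sw (sw v) = v := by
        intro v
        ext i
        fin_cases i
        · simp [sw]
        · simp [sw]
      ext v
      constructor
      · rintro ⟨w, hw, rfl⟩
        rw [mem_preimage, hinv]; exact hw
      · intro hv
        exact ⟨sw v, hv, hinv v⟩
    rw [e, measurePreserving_sw.measure_preimage hm.nullMeasurableSet]
    exact seg_null hc
  · intro e he
    rw [EuclideanSpace.norm_eq, Real.sqrt_eq_one, Fin.sum_univ_two] at he
    simp only [Real.norm_eq_abs, sq_abs] at he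
    have main : ∀ s t : ℝ, s ^ 2 + t ^ 2 = 1 → |t| ≤ |s| → ∃ a b m : ℝ, (a, b) ∈ G ∧
        ∀ θ : ℝ, 0 ≤ θ → θ ≤ 1 → 0 ≤ m + θ * s ∧ m + θ * s ≤ 1 ∧
          (a * m + b) + θ * t = a * (m + θ * s) + b := by
      intro s t hst hts
      have hs0 : s ≠ 0 := by
        rintro rfl
        simp at hts
        subst hts
        norm_num at hst
      have hs1 : |s| ≤ 1 := by
        rw [abs_le]; constructor <;> nlinarith [sq_nonneg t]
      have ha : |t / s| ≤ 1 := by
        rw [abs_div, div_le_one (abs_pos.2 hs0)]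
        exact hts
      rw [abs_le] at ha hs1
      obtain ⟨b, hb⟩ := hs (t / s) ha.1 ha.2
      refine ⟨t / s, b, max 0 (-s), hb, fun θ h0 h1 => ⟨?_, ?_, ?_⟩⟩
      · rcases le_total 0 s with h | h
        · have := le_max_left 0 (-s)
          nlinarith
        · have := le_max_right 0 (-s)
          nlinarith
      · rcases le_total 0 s with h | h
        · rw [max_eq_left (by linarith)]
          nlinarith
        · rw [max_eq_right (by linarith)]
          nlinarith
      · field_simp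
        ring
    rcases le_total |e 1| |e 0| with hc | hc
    · obtain ⟨a, b, m, hab, h⟩ := main (e 0) (e 1) he hc
      refine ⟨!₂[m, a * m + b], ?_⟩
      rw [segment_eq_image']
      rintro v ⟨θ, ⟨h0, h1⟩, rfl⟩
      obtain ⟨g1, g2, g3⟩ := h θ h0 h1
      refine Or.inl ⟨⟨(a, b), m + θ * e 0⟩, ⟨hab, g1, g2⟩, ?_⟩
      ext i
      fin_cases i
      · simp
      · simp only [Fin.mk_one, Fin.isValue, Matrix.cons_val_one,
          Matrix.cons_val_fin_one, add_sub_cancel_left, PiLp.add_apply, PiLp.smul_apply, smul_eq_mul]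
        exact g3.symm
    · obtain ⟨a, b, m, hab, h⟩ := main (e 1) (e 0) (by linarith) hc
      refine ⟨!₂[a * m + b, m], ?_⟩
      rw [segment_eq_image']
      rintro v ⟨θ, ⟨h0, h1⟩, rfl⟩
      obtain ⟨g1, g2, g3⟩ := h θ h0 h1
      refine Or.inr ⟨_, ⟨⟨(a, b), m + θ * e 1⟩, ⟨hab, g1, g2⟩, rfl⟩, ?_⟩
      ext i
      fin_cases i
      · simp only [sw, Fin.zero_eta, Fin.isValue, PiLp.toLp_apply, Matrix.cons_val_zero,
          Matrix.cons_val_one, Matrix.cons_val_fin_one, add_sub_cancel_left, PiLp.add_apply,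
          PiLp.smul_apply, smul_eq_mul]
        exact g3.symm
      · simp [sw]
  · rintro v (hv | hv)
    · obtain ⟨x, e, h1, h2, h3⟩ := seg_segments G v hv
      exact ⟨x, e, h1, h2, h3.trans subset_union_left⟩
    · obtain ⟨x, e, h1, h2, h3⟩ := sw_seg_segments G v hv
      exact ⟨x, e, h1, h2, h3.trans subset_union_right⟩

/-- a compact null union of unit segments containing `NN` -/
theorem cover_NN : ∃ E : Set Plane, IsCompact E ∧ volume E = 0 ∧ NN ⊆ E ∧
    ∀ v ∈ E, ∃ x e : Plane, ‖e‖ = 1 ∧ v ∈ segment ℝ x (x + e) ∧ segment ℝ x (x + e) ⊆ E := by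
  obtain ⟨H, h1, h2, h3⟩ := davies TT_compact TT_null
  refine ⟨spray H, spray_compact h1, spray_null h3, ?_, spray_segments H⟩
  intro v hv
  obtain ⟨a, ha⟩ := h2 (v 0, v 1) hv
  refine ⟨⟨((v 0, v 1), a), 0⟩, ⟨ha, by simp⟩, ?_⟩
  ext i
  fin_cases i
  · simp
  · simp

end

end Pool.Agent.Run7.h542.BS
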