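import Mathlib
import Pool.Agent.Run7.h542.BS.Union
import Pool.Agent.Run7.h542.BS.Davies2

set_option autoImplicit false

/-!
# One unit segment per direction
-/

namespace Pool.Agent.Run7.h542.BS

open MeasureTheory Set Cardinal
open Pool.Agent.Results.MP_6b55e5_an.RogersQ2

noncomputable section

/-- injective selection from large sets -/
theorem sel {α β : Type} (S : α → Set β) (h : ∀ p, #α ≤ #(S p)) :
    ∃ a : α → β, Function.Injective a ∧ ∀ p, a p ∈ S p := by
  classical
  obtain ⟨r, hwo, hr⟩ := Cardinal.exists_ord_eq α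
  have hstep : ∀ (p : α) (f : ∀ q, r q p → β), ∃ b ∈ S p, ∀ q (hq : r q p), f q hq ≠ b := by
    intro p f
    by_contra hcon
    push Not at hcon
    have h1 : S p ⊆ Set.range (fun q : {q // r q p} => f q.1 q.2) := by
      intro b hb
      obtain ⟨q, hq, hfq⟩ := hcon b hb
      exact ⟨⟨q, hq⟩, hfq⟩
    have h2 : #(S p) ≤ #{q // r q p} := (Cardinal.mk_le_mk_of_subset h1).trans Cardinal.mk_range_le
    have h3 : #{q // r q p} < #α := Cardinal.card_typein_lt p hr
    exact absurd ((h p).trans h2) (not_le.2 h3)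
  choose g hg1 hg2 using hstep
  set a : α → β := hwo.wf.fix (fun p f => g p f) with ha
  have haeq : ∀ p, a p = g p (fun q _ => a q) := fun p => hwo.wf.fix_eq _ p
  refine ⟨a, ?_, fun p => by rw [haeq]; exact hg1 _ _⟩
  intro p q hpq
  rcases trichotomous_of r p q with h1 | h1 | h1
  · exfalso
    have := hg2 q (fun q' _ => a q') p h1
    rw [← haeq] at this
    exact this hpq
  · exact h1
  · exfalso
    have := hg2 p (fun q' _ => a q') q h1
    rw [← haeq] at this
    exact this hpq.symm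

/-- one slope for each point of `TT`, injectively, inside a compact family of null spray -/
theorem family : ∃ (H : Set ((ℝ × ℝ) × ℝ)) (a : ℝ × ℝ → ℝ), IsCompact H ∧ volume (spray H) = 0 ∧
    InjOn a TT ∧ ∀ P ∈ TT, (P, a P) ∈ H := by
  classical
  obtain ⟨H, h1, h2, h3⟩ := davies2 TT_compact TT_null
  obtain ⟨a, ha1, ha2⟩ := sel (fun P : TT => {a : ℝ | (P.1, a) ∈ H}) (fun P => by
    refine le_trans ?_ (h2 P.1 P.2)
    calc #TT ≤ #(ℝ × ℝ) := mk_set_le TT
      _ = 𝔠 := by simp [Cardinal.mk_real])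
  set b : ℝ × ℝ → ℝ := fun P => if h : P ∈ TT then a ⟨P, h⟩ else 0 with hb
  have hb1 : ∀ P (h : P ∈ TT), b P = a ⟨P, h⟩ := fun P h => by rw [hb]; simp only; rw [dif_pos h]
  refine ⟨H, b, h1, spray_null h3, ?_, fun P hP => ?_⟩
  · intro P hP P' hP' h
    rw [hb1 P hP, hb1 P' hP'] at h
    exact congrArg Subtype.val (ha1 h)
  · rw [hb1 P hP]
    exact ha2 ⟨P, hP⟩

/-- one closed unit segment in each direction; the union contains `NN` and has compact null
closure -/
theorem one_per : ∃ I : Plane → Set Plane,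
    (∀ e : Plane, ‖e‖ = 1 → (∃ x, I e = segment ℝ x (x + e)) ∧ I (-e) = I e) ∧
    IsBesicovitch (⋃ e ∈ {e : Plane | ‖e‖ = 1}, I e) ∧
    IsBesicovitch (closure (⋃ e ∈ {e : Plane | ‖e‖ = 1}, I e)) ∧
    NN ⊆ ⋃ e ∈ {e : Plane | ‖e‖ = 1}, I e := by
  classical
  obtain ⟨E0, hE0, ⟨_, hE1, hE2⟩, _⟩ := compact_besicovitch'
  obtain ⟨H, a, hHc, hH0, ha1, ha2⟩ := family
  have hx0 : ∀ e : Plane, ∃ x : Plane, ‖e‖ = 1 → segment ℝ x (x + e) ⊆ E0 := by
    intro e
    by_cases he : ‖e‖ = 1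
    · obtain ⟨x, hx⟩ := hE2 e he
      exact ⟨x, fun _ => hx⟩
    · exact ⟨0, fun h => absurd h he⟩
  choose x0 hx0 using hx0
  -- the starting point of the segment in a given direction
  have hX : ∀ e : Plane, ∃ X : Plane, (0 < e 0 → ∀ P ∈ TT, a P = e 1 / e 0 → X = !₂[P.1, P.2]) ∧
      (‖e‖ = 1 → segment ℝ X (X + e) ⊆ spray H ∪ E0) := by
    intro e
    by_cases h : 0 < e 0 ∧ ∃ P ∈ TT, a P = e 1 / e 0
    · obtain ⟨h0, P, hP, hPe⟩ := h
      refine ⟨!₂[P.1, P.2], fun _ P' hP' hPe' => ?_, fun he => ?_⟩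
      · rw [ha1 hP' hP (hPe'.trans hPe.symm)]
      · refine Subset.trans ?_ subset_union_left
        have he0 : e 0 ≤ 1 := by
          rw [EuclideanSpace.norm_eq, Real.sqrt_eq_one, Fin.sum_univ_two] at he
          simp only [Real.norm_eq_abs, sq_abs] at he
          nlinarith [sq_nonneg (e 1)]
        rw [segment_eq_image']
        rintro _ ⟨θ, ⟨h1, h2⟩, rfl⟩
        refine ⟨⟨(P, a P), θ * e 0⟩, ⟨ha2 P hP, by positivity, by nlinarith⟩, ?_⟩
        have h3 : a P * (θ * e 0) = θ * e 1 := by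
          rw [hPe]; field_simp
        ext i
        fin_cases i
        · simp
        · simp only [Fin.mk_one, Fin.isValue, Matrix.cons_val_one,
            Matrix.cons_val_fin_one, add_sub_cancel_left, PiLp.add_apply, PiLp.smul_apply,
            smul_eq_mul]
          rw [h3]
    · refine ⟨x0 e, fun h0 P hP hPe => absurd ⟨h0, P, hP, hPe⟩ h, fun he => ?_⟩
      exact (hx0 e he).trans subset_union_right
  choose X hX1 hX2 using hX
  set pos : Plane → Prop := fun e => 0 < e 0 ∨ (e 0 = 0 ∧ 0 < e 1) with hpos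
  have hpos1 : ∀ e : Plane, ‖e‖ = 1 → (pos e ∧ ¬ pos (-e)) ∨ (¬ pos e ∧ pos (-e)) := by
    intro e he
    simp only [hpos, PiLp.neg_apply]
    rcases lt_trichotomy (e 0) 0 with h | h | h
    · right
      refine ⟨?_, Or.inl (by linarith)⟩
      rintro (h1 | ⟨h1, _⟩) <;> linarith
    · rcases lt_trichotomy (e 1) 0 with h' | h' | h'
      · right
        refine ⟨?_, Or.inr ⟨by linarith, by linarith⟩⟩
        rintro (h1 | ⟨_, h1⟩) <;> linarith
      · exfalso
        rw [EuclideanSpace.norm_eq, Real.sqrt_eq_one, Fin.sum_univ_two, h, h'] at he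
        simp at he
      · left
        refine ⟨Or.inr ⟨h, h'⟩, ?_⟩
        rintro (h1 | ⟨_, h1⟩) <;> linarith
    · left
      refine ⟨Or.inl h, ?_⟩
      rintro (h1 | ⟨h1, _⟩) <;> linarith
  set I : Plane → Set Plane := fun e =>
    if pos e then segment ℝ (X e) (X e + e) else segment ℝ (X (-e)) (X (-e) + -e) with hI
  have hIp : ∀ e, pos e → I e = segment ℝ (X e) (X e + e) := fun e h => by
    simp only [hI]; rw [if_pos h]
  have hIn : ∀ e, ¬ pos e → I e = segment ℝ (X (-e)) (X (-e) + -e) := fun e h => by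
    simp only [hI]; rw [if_neg h]
  have hI1 : ∀ e : Plane, ‖e‖ = 1 → (∃ x, I e = segment ℝ x (x + e)) ∧ I (-e) = I e := by
    intro e he
    rcases hpos1 e he with ⟨h1, h2⟩ | ⟨h1, h2⟩
    · refine ⟨⟨X e, hIp e h1⟩, ?_⟩
      rw [hIp e h1, hIn (-e) h2, neg_neg]
    · refine ⟨⟨X (-e) + -e, ?_⟩, ?_⟩
      · rw [hIn e h1, segment_symm]
        congr 1
        abel
      · rw [hIn e h1, hIp (-e) h2]
  have hI2 : ∀ e : Plane, ‖e‖ = 1 → I e ⊆ spray H ∪ E0 := by
    intro e he
    by_cases h : pos e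
    · rw [hIp e h]; exact hX2 e he
    · rw [hIn e h]; exact hX2 (-e) (by rw [norm_neg]; exact he)
  have hsub : (⋃ e ∈ {e : Plane | ‖e‖ = 1}, I e) ⊆ spray H ∪ E0 := by
    intro v hv
    obtain ⟨e, he, hv⟩ := mem_iUnion₂.1 hv
    exact hI2 e he hv
  have hcomp : IsCompact (spray H ∪ E0) := (spray_compact hHc).union hE0
  have hclo : closure (⋃ e ∈ {e : Plane | ‖e‖ = 1}, I e) ⊆ spray H ∪ E0 :=
    closure_minimal hsub hcomp.isClosed
  have hnull : volume (spray H ∪ E0) = 0 := measure_union_null hH0 hE1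
  have hdir : ∀ e : Plane, ‖e‖ = 1 → ∃ x, segment ℝ x (x + e) ⊆
      ⋃ e ∈ {e : Plane | ‖e‖ = 1}, I e := by
    intro e he
    obtain ⟨x, hx⟩ := (hI1 e he).1
    refine ⟨x, ?_⟩
    rw [← hx]
    exact fun v hv => mem_iUnion₂.2 ⟨e, he, hv⟩
  refine ⟨I, hI1, ⟨hcomp.isBounded.subset hsub, measure_mono_null hsub hnull, hdir⟩,
    ⟨hcomp.isBounded.subset hclo, measure_mono_null hclo hnull, fun e he => ?_⟩, ?_⟩
  · obtain ⟨x, hx⟩ := hdir e he
    exact ⟨x, hx.trans subset_closure⟩
  · intro v hv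
    set s := a (v 0, v 1) with hs
    set r := Real.sqrt (1 + s ^ 2) with hr
    have hr0 : 0 < r := Real.sqrt_pos.2 (by positivity)
    have hr2 : r ^ 2 = 1 + s ^ 2 := Real.sq_sqrt (by positivity)
    have he : ‖(!₂[1 / r, s / r] : Plane)‖ = 1 := by
      rw [EuclideanSpace.norm_eq, Real.sqrt_eq_one, Fin.sum_univ_two]
      simp only [Real.norm_eq_abs, sq_abs, Fin.isValue, Matrix.cons_val_zero,
        Matrix.cons_val_one, Matrix.cons_val_fin_one]
      rw [div_pow, div_pow, ← add_div, hr2]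
      field_simp
    have hp : pos (!₂[1 / r, s / r] : Plane) := by
      left
      simp only [Fin.isValue, Matrix.cons_val_zero]
      positivity
    refine mem_iUnion₂.2 ⟨!₂[1 / r, s / r], he, ?_⟩
    rw [hIp _ hp]
    have hXe : X !₂[1 / r, s / r] = v := by
      rw [hX1 _ (by
        simp only [Fin.isValue, Matrix.cons_val_zero]
        positivity) (v 0, v 1) hv (by
        simp only [Fin.isValue, Matrix.cons_val_zero, Matrix.cons_val_one,
          Matrix.cons_val_fin_one]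
        rw [← hs]
        field_simp)]
      ext i
      fin_cases i
      · simp
      · simp
    rw [hXe]
    exact left_mem_segment ℝ _ _

end

end Pool.Agent.Run7.h542.BS
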